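import Pool.Agent.H63.VL.Gen
import Pool.Agent.H63.VH.Main4

set_option autoImplicit false
set_option linter.unusedSectionVars false

/-! # The engine in a chart, for ideals -/

namespace Pool.Agent.H63.VL

open PowerSeries Pool.Agent.H63.VH

variable {k σ : Type} [CommRing k] [Algebra ℂ k] [Fintype σ] [DecidableEq σ]

theorem final_step2 {R W κ : Type} [CommRing R] [AddCommGroup W]
    (φ : MvPolynomial σ (Polynomial k) →+* R) (f : MvPolynomial σ (Polynomial k))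
    (q : κ → MvPolynomial σ (Polynomial k)) (L : κ → ℕ)
    (s : Polynomial k) (x G H J : R) (M : ℕ) (hf : φ f = x ^ M * G) (hGH : G * H = 1)
    (T : R →+ W) (hTx : ∀ m u, T u = 0 → T (x ^ m * u) = 0)
    (heng : ∀ (w : List (σ ⊕ σ) × κ) p, T (J * φ p *
      (φ (q2 f s (q w.2) (L w.2) w.1) * G * H ^ (w.1.length + L w.2))) = 0)
    (N : ℕ) (S : Finset (List (σ ⊕ σ) × κ)) (hS : ∀ w ∈ S, w.1.length + L w.2 ≤ N)
    (r : List (σ ⊕ σ) × κ → Polynomial k) (Q : Polynomial k)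
    (heq : WEq f q L N S s Q r) :
    T (x ^ (M * N) * (φ (MvPolynomial.C Q) * J)) = 0 := by
  have h2 := congrArg (fun v => J * (φ v * H ^ N)) heq
  simp only [map_mul, map_sum, map_pow, hf] at h2
  have h3 : J * (φ (MvPolynomial.C Q) * (x ^ M * G) ^ N * H ^ N) =
      x ^ (M * N) * (φ (MvPolynomial.C Q) * J) := by
    have : (G * H) ^ N = 1 := by rw [hGH, one_pow]
    rw [mul_pow, ← pow_mul]
    linear_combination (J * φ (MvPolynomial.C Q) * x ^ (M * N)) * this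
  have h4 : ∀ w ∈ S, φ (MvPolynomial.C (r w)) * (x ^ M * G) ^ (N + 1 - (w.1.length + L w.2)) *
      φ (q2 f s (q w.2) (L w.2) w.1) * H ^ N =
      x ^ (M * (N + 1 - (w.1.length + L w.2))) * (φ (MvPolynomial.C (r w)) *
        (φ (q2 f s (q w.2) (L w.2) w.1) * G * H ^ (w.1.length + L w.2))) := by
    intro w hw
    have hwN := hS w hw
    obtain ⟨m, hm⟩ : ∃ m, N = (w.1.length + L w.2) + m := ⟨N - (w.1.length + L w.2), by omega⟩
    have e1 : N + 1 - (w.1.length + L w.2) = m + 1 := by omega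
    have : (G * H) ^ m = 1 := by rw [hGH, one_pow]
    rw [e1, hm, mul_pow, ← pow_mul, pow_add H (w.1.length + L w.2), pow_succ G]
    linear_combination (x ^ (M * (m + 1)) * φ (MvPolynomial.C (r w)) *
        (φ (q2 f s (q w.2) (L w.2) w.1) * G * H ^ (w.1.length + L w.2))) * this
  rw [← h3, h2, Finset.sum_mul, Finset.mul_sum, map_sum]
  refine Finset.sum_eq_zero fun w hw => ?_
  rw [h4 w hw]
  have h7 : J * (x ^ (M * (N + 1 - (w.1.length + L w.2))) * (φ (MvPolynomial.C (r w)) *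
      (φ (q2 f s (q w.2) (L w.2) w.1) * G * H ^ (w.1.length + L w.2)))) =
      x ^ (M * (N + 1 - (w.1.length + L w.2))) * (J * φ (MvPolynomial.C (r w)) *
        (φ (q2 f s (q w.2) (L w.2) w.1) * G * H ^ (w.1.length + L w.2))) := by ring
  rw [h7]
  exact hTx _ _ (heng w _)

section Core

variable (e : σ → ℕ) (he : ∀ t, e t ≠ 0) (D : ℕ) (d : σ → ℕ) (β : σ → k)
  (ξ : σ → MvPowerSeries σ ℂ)

include he in
theorem chart_core2 {ϰ : Type} (κ a : σ → ℕ) (U : MvPowerSeries σ ℂ)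
    (hJ : (Matrix.of fun t i => MvPowerSeries.pderiv ℂ t (ξ i)).det =
      (∏ t, MvPowerSeries.X t ^ κ t) * U)
    (F : MvPolynomial σ (Polynomial k)) (q : ϰ → MvPolynomial σ (Polynomial k)) (L : ϰ → ℕ)
    (M : ℕ) (y y' ρ : (BB k σ)⟦X⟧)
    (hF : phi e he D d β ξ F = X ^ M * (C (mon (fun t => (a t : ℤ), 1)) * (1 + y)))
    (s : k) (hd : ∀ t, d t ≠ 0) (hy' : (1 + y) * y' = 1)
    (hρ : ∀ D' : Derivation k (BB k σ) (BB k σ), (1 + y) * PD D' ρ = s • (ρ * PD D' y))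
    (g : σ → ℤ → k) (p c : ℤ → k)
    (hg : ∀ t l, (d t : k) * β t * g t (l + 1) = (d t * l + (((κ t + 1 : ℕ) : k) + a t * s)) * g t l)
    (hc : ∀ m : ℤ, (-s + m) * c (m + 1) = c m)
    (htp : ∀ v, lam d (fun t => κ t + 1) g p c (tp d β * v) = lam d (fun t => κ t + 1) g p c v)
    (hzero : ∀ i q', PL (lam d (fun t => κ t + 1) g p c)
      (C (mon (fun t => ((κ t + 1 : ℕ) : ℤ), 0)) * SS e he U * phi e he D d β ξ q' *
        (phi e he D d β ξ (q i) * (C (mon (fun t => (a t : ℤ), 1)) * (1 + y)) *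
          (C (mon (fun t => -(a t : ℤ), -1)) * y') ^ L i) * ρ) = 0)
    (N : ℕ) (S : Finset (List (σ ⊕ σ) × ϰ)) (hS : ∀ w ∈ S, w.1.length + L w.2 ≤ N)
    (r : List (σ ⊕ σ) × ϰ → Polynomial k) (Q : Polynomial k)
    (heq : WEq F q L N S (Polynomial.C s) Q r) :
    Polynomial.aeval (X ^ D : k⟦X⟧) Q * PL (lam d (fun t => κ t + 1) g p c)
      (C (mon (fun t => ((κ t + 1 : ℕ) : ℤ), 0)) * SS e he U * ρ) = 0 := by
  obtain ⟨K, hK⟩ : ∃ K : σ → ℕ, K = fun t => κ t + 1 := ⟨_, rfl⟩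
  obtain ⟨G, hG⟩ : ∃ G : (BB k σ)⟦X⟧, G = C (mon (fun t => (a t : ℤ), 1)) * (1 + y) := ⟨_, rfl⟩
  obtain ⟨H, hH⟩ : ∃ H : (BB k σ)⟦X⟧, H = C (mon (fun t => -(a t : ℤ), -1)) * y' := ⟨_, rfl⟩
  obtain ⟨J, hJJ⟩ : ∃ J : (BB k σ)⟦X⟧, J = (Matrix.of fun t i =>
    PD (Th d β t) (phi e he D d β ξ (MvPolynomial.X i))).det := ⟨_, rfl⟩
  have hJ' : J = X ^ (∑ t, e t * (κ t + 1)) *
      (C (mon (fun t => ((κ t + 1 : ℕ) : ℤ), 0)) * SS e he U) := by
    rw [hJJ]; exact jac_phi e he D d β ξ κ U hJ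
  rw [← hG] at hF
  rw [← hG, ← hH] at hzero
  rw [← hK] at htp hzero ⊢
  obtain ⟨T, hT⟩ : ∃ T, T = TT d K g p c ρ := ⟨_, rfl⟩
  have hGH : G * H = 1 := by
    have h1 : (C (mon (fun t => (a t : ℤ), 1)) * C (mon (fun t => -(a t : ℤ), -1)) :
        (BB k σ)⟦X⟧) = 1 := by
      rw [← map_mul, mon_mul]
      have : ((fun t => (a t : ℤ), 1) + (fun t => -(a t : ℤ), -1) : Gam σ) = 0 := by
        ext t <;> simp
      rw [this, mon_zero, map_one]
    rw [hG, hH]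
    linear_combination ((1 + y) * y') * h1 + hy'
  have hTX : ∀ m u, T u = 0 → T (X ^ m * u) = 0 := by
    intro m u hu
    rw [hT, TT_X_pow, ← hT, hu, mul_zero]
  have hzero' : ∀ i q', T (J * phi e he D d β ξ q' *
      (phi e he D d β ξ (q i) * G * H ^ L i)) = 0 := by
    intro i q'
    have h1 : J * phi e he D d β ξ q' * (phi e he D d β ξ (q i) * G * H ^ L i) * ρ =
        X ^ (∑ t, e t * (κ t + 1)) *
        (C (mon (fun t => ((κ t + 1 : ℕ) : ℤ), 0)) * SS e he U * phi e he D d β ξ q' *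
        (phi e he D d β ξ (q i) * G * H ^ L i) * ρ) := by
      rw [hJ']
      ring
    rw [hT, TT_apply, h1, PL_X_pow, hzero i q', mul_zero]
  have hCz : phi e he D d β ξ (MvPolynomial.C (Polynomial.C s)) =
      algebraMap k (BB k σ)⟦X⟧ s := by
    rw [phi_C, psi, Polynomial.aeval_C]
  have heng : ∀ (w : List (σ ⊕ σ) × ϰ) q', T (J * phi e he D d β ξ q' *
      (phi e he D d β ξ (q2 F (Polynomial.C s) (q w.2) (L w.2) w.1) * G *
        H ^ (w.1.length + L w.2))) = 0 := by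
    intro w q'
    rw [hJJ]
    refine engine2 (fun t => (PD (Th d β t)).restrictScalars ℂ)
      (fun s t u => PD_comm _ _ (Th_comm d β s t) u) (phi e he D d β ξ) (phi_der e he D d β ξ)
      F (Polynomial.C s) _ hCz (X ^ M) G H hF hGH
      (fun t => PD_X_pow (Th d β t) M) T (hTX _) (fun t u => ?_) (q w.2) (L w.2)
      (fun q' => ?_) w.1 q'
    · rw [hT, hG, hH]
      refine TT_twist d β K a g p c y y' ρ s hd hy' hρ (fun t l => ?_) hc t u
      rw [hK]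
      exact hg t l
    · have := hzero' w.2 q'
      rw [hJJ] at this
      exact this
  have h5 := final_step2 (phi e he D d β ξ) F q L (Polynomial.C s) X G H J _ hF hGH T hTX
    heng N S hS r Q heq
  rw [hT, TT_X_pow, phi_C, TT_psi D d β K g p c ρ htp, hJ', TT_X_pow, TT_apply] at h5
  have h6 : ∀ (m : ℕ) (v : k⟦X⟧), X ^ m * v = 0 → v = 0 := by
    intro m v hv
    ext n
    have := congrArg (coeff (n + m)) hv
    rwa [coeff_X_pow_mul, map_zero] at this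
  have h7 := h6 _ _ h5
  have h8 : X ^ (∑ t, e t * (κ t + 1)) * (Polynomial.aeval (X ^ D : k⟦X⟧) Q *
      PL (lam d K g p c) (C (mon (fun t => ((κ t + 1 : ℕ) : ℤ), 0)) * SS e he U * ρ)) = 0 := by
    rw [← h7]
    ring
  exact h6 _ _ h8

theorem mon_shift (a : σ → ℕ) (n : ℕ) :
    (C (mon (fun t => ((n * a t : ℕ) : ℤ), 0)) : (BB k σ)⟦X⟧) *
      C (mon (fun t => -(a t : ℤ), -1)) ^ n = C (mon (0, -(n : ℤ))) := by
  induction n with
  | zero =>
    have : ((fun t => ((0 * a t : ℕ) : ℤ), 0) : Gam σ) = (0, -((0 : ℕ) : ℤ)) := by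
      ext t <;> simp
    rw [this, pow_zero, mul_one]
  | succ n ih =>
    have h1 : (C (mon (fun t => (((n + 1) * a t : ℕ) : ℤ), 0)) : (BB k σ)⟦X⟧) =
        C (mon (fun t => ((n * a t : ℕ) : ℤ), 0)) * C (mon (fun t => (a t : ℤ), 0)) := by
      rw [← map_mul, mon_mul]
      congr 2
      ext t
      · simp
        ring
      · simp
    have h2 : (C (mon (fun t => (a t : ℤ), 0)) : (BB k σ)⟦X⟧) *
        C (mon (fun t => -(a t : ℤ), -1)) = C (mon (0, -1)) := by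
      rw [← map_mul, mon_mul]
      congr 2
      ext t <;> simp
    have h3 : (C (mon (0, -(n : ℤ))) : (BB k σ)⟦X⟧) * C (mon (0, -1)) =
        C (mon (0, -((n + 1 : ℕ) : ℤ))) := by
      rw [← map_mul, mon_mul]
      congr 2
      ext t
      · simp
      · simp
        ring
    rw [h1, pow_succ, ← h3, ← ih, ← h2]
    ring

variable {ι : Type} [Fintype ι] [DecidableEq ι]

theorem phi_qfam (a : σ → ℕ) (fj : ι → MvPolynomial σ ℂ) (hj : ι → MvPowerSeries σ ℂ)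
    (hfj : ∀ j, MvPolynomial.aeval ξ (fj j) = (∏ t, MvPowerSeries.X t ^ a t) * hj j)
    (γ : ι →₀ ℕ) :
    phi e he D d β ξ (qfam (fun j => MvPolynomial.map cst (fj j)) γ) =
      X ^ ((∑ t, e t * a t) * ∑ j, γ j) * (C (mon (fun t => (((∑ j, γ j) * a t : ℕ) : ℤ), 0)) *
        ∏ j, SS e he (hj j) ^ γ j) := by
  have h1 : ∀ n : ℕ, (C (mon (fun t => (a t : ℤ), 0)) : (BB k σ)⟦X⟧) ^ n =
      C (mon (fun t => ((n * a t : ℕ) : ℤ), 0)) := by
    intro n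
    induction n with
    | zero =>
      have : ((fun t => ((0 * a t : ℕ) : ℤ), 0) : Gam σ) = 0 := by
        ext t <;> simp
      rw [this, mon_zero, map_one, pow_zero]
    | succ n ih =>
      rw [pow_succ, ih, ← map_mul, mon_mul]
      congr 2
      ext t
      · simp
        ring
      · simp
  rw [qfam, map_prod]
  have h2 : ∀ j, phi e he D d β ξ (MvPolynomial.map cst (fj j) ^ γ j) =
      (X ^ (∑ t, e t * a t) * C (mon (fun t => (a t : ℤ), 0))) ^ γ j * SS e he (hj j) ^ γ j := by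
    intro j
    rw [map_pow, phi_map, hfj, map_mul, SS_prod, mul_pow]
    ring
  rw [Finset.prod_congr rfl fun j _ => h2 j, Finset.prod_mul_distrib, Finset.prod_pow_eq_pow_sum,
    mul_pow, h1, ← pow_mul]
  ring

/-- the vanishing of the functional on the words of the ideal -/
theorem zero_types (κ a : σ → ℕ) (T : Finset σ) (hTa : ∀ t ∈ T, a t ≠ 0)
    (fj : ι → MvPolynomial σ ℂ) (hj : ι → MvPowerSeries σ ℂ)
    (hfj : ∀ j, MvPolynomial.aeval ξ (fj j) = (∏ t, MvPowerSeries.X t ^ a t) * hj j)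
    (g : σ → ℤ → k) (p c : ℤ → k)
    (hval : ∀ γ, ZA (fun t => κ t + 1) T γ → val d (fun t => κ t + 1) g p c γ = 0)
    (y y' ρ U' : (BB k σ)⟦X⟧) (hy : y ∈ Rp (ZA (fun t => κ t + 1) T))
    (hyp : y' ∈ Rp (ZA (fun t => κ t + 1) T)) (hρ : ρ ∈ Rp (ZA (fun t => κ t + 1) T))
    (hU' : U' ∈ Rp (ZA (fun t => κ t + 1) T)) (i : ι →₀ ℕ)
    (q' : MvPolynomial σ (Polynomial k)) :
    PL (lam d (fun t => κ t + 1) g p c)
      (C (mon (fun t => ((κ t + 1 : ℕ) : ℤ), 0)) * U' * phi e he D d β ξ q' *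
        (phi e he D d β ξ (qfam (fun j => MvPolynomial.map cst (fj j)) i) *
          (C (mon (fun t => (a t : ℤ), 1)) * (1 + y)) *
          (C (mon (fun t => -(a t : ℤ), -1)) * y') ^ (∑ j, i j)) * ρ) = 0 := by
  obtain ⟨n, hn⟩ : ∃ n, n = ∑ j, i j := ⟨_, rfl⟩
  rw [phi_qfam e he D d β ξ a fj hj hfj i, ← hn]
  have h1 : C (mon (fun t => ((κ t + 1 : ℕ) : ℤ), 0)) * U' * phi e he D d β ξ q' *
        (X ^ ((∑ t, e t * a t) * n) * (C (mon (fun t => ((n * a t : ℕ) : ℤ), 0)) *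
        ∏ j, SS e he (hj j) ^ i j) *
          (C (mon (fun t => (a t : ℤ), 1)) * (1 + y)) *
          (C (mon (fun t => -(a t : ℤ), -1)) * y') ^ n) * ρ =
      X ^ ((∑ t, e t * a t) * n) * (C (mon (fun t => ((κ t + 1 : ℕ) : ℤ) + a t, 1 - (n : ℤ))) *
        (U' * phi e he D d β ξ q' * (∏ j, SS e he (hj j) ^ i j) * y' ^ n * (1 + y) * ρ)) := by
    have h2 : (C (mon (fun t => ((κ t + 1 : ℕ) : ℤ) + a t, 1 - (n : ℤ))) : (BB k σ)⟦X⟧) =
        C (mon (fun t => ((κ t + 1 : ℕ) : ℤ), 0)) * C (mon (fun t => (a t : ℤ), 1)) *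
          C (mon (0, -(n : ℤ))) := by
      rw [← map_mul, ← map_mul, mon_mul, mon_mul]
      congr 2
    rw [h2, ← mon_shift a n, mul_pow]
    ring
  rw [h1, PL_X_pow]
  have h3 := zero_A d (fun t => κ t + 1) T g p c hval
    (fun t => ((κ t + 1 : ℕ) : ℤ) + a t, 1 - (n : ℤ)) (fun t ht => by
      have := Nat.one_le_iff_ne_zero.2 (hTa t ht)
      push_cast
      omega) (U' * phi e he D d β ξ q' * (∏ j, SS e he (hj j) ^ i j) * y' ^ n * (1 + y) * ρ) (by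
    refine (Rp _).mul_mem ((Rp _).mul_mem ((Rp _).mul_mem ((Rp _).mul_mem ((Rp _).mul_mem hU'
      (phi_mem e he D d _ ξ _ (ZA_adm _ T) q')) ?_) ((Rp _).pow_mem hyp n))
      ((Rp _).add_mem (Rp _).one_mem hy)) hρ
    exact (Rp _).prod_mem fun j _ => (Rp _).pow_mem (SS_mem_Rp e _ (ZA_adm _ T) he _) _)
  rw [h3, mul_zero]

end Core

/-- the recursion, with invisible coordinates -/
theorem exists_g2 (ε : k)
    (hunit : ∀ (r : ℂ) (x : k), r ≠ 0 → IsUnit (algebraMap ℂ k r + ε * x))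
    (a κ d : σ → ℕ) (b : σ → ℂ) (hd : ∀ t, d t ≠ 0) (s0 : ℂ)
    (hb : ∀ t, b t ≠ 0 ∨ (b t = 0 ∧ ((κ t + 1 : ℕ) : k) + a t * (algebraMap ℂ k s0 + ε) = 0))
    (hA : ∀ t, ∀ n : ℕ, 1 ≤ n → ((κ t + 1 : ℕ) : ℂ) + a t * s0 ≠ d t * n)
    (T : Finset σ) (hT : ∀ t ∈ T, ((κ t + 1 : ℕ) : ℂ) + a t * s0 = 0) :
    ∃ g : σ → ℤ → k, (∀ t, g t 0 = 1) ∧ (∀ t l, (d t : k) * algebraMap ℂ k (b t) * g t (l + 1) =
      (d t * l + (((κ t + 1 : ℕ) : k) + a t * (algebraMap ℂ k s0 + ε))) * g t l) ∧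
      ∀ t ∈ T, ∀ l : ℤ, 1 ≤ l → ∃ x, g t l = ε * x := by
  have h : ∀ t, ∃ g : ℤ → k, g 0 = 1 ∧ (∀ l : ℤ, (d t : k) * algebraMap ℂ k (b t) * g (l + 1) =
      (d t * l + (((κ t + 1 : ℕ) : k) + a t * (algebraMap ℂ k s0 + ε))) * g l) ∧
      (t ∈ T → ∀ l : ℤ, 1 ≤ l → ∃ x, g l = ε * x) := by
    intro t
    rcases hb t with hbt | ⟨hbt, hz⟩
    · obtain ⟨g, hg0, hg⟩ := exists_rec (fun _ => (d t : k) * algebraMap ℂ k (b t))
        (fun l => d t * l + (((κ t + 1 : ℕ) : k) + a t * (algebraMap ℂ k s0 + ε)))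
        (fun n _ => by
          have h1 := hunit (d t * b t) 0 (mul_ne_zero (Nat.cast_ne_zero.2 (hd t)) hbt)
          rw [mul_zero, add_zero, map_mul, map_natCast] at h1
          exact h1) (fun n hn => by
          obtain ⟨m, rfl⟩ : ∃ m : ℕ, n = -(m : ℤ) := ⟨(-n).toNat, by omega⟩
          have h1 := hunit (-(d t * m) + (((κ t + 1 : ℕ) : ℂ) + a t * s0)) (a t) (by
            intro h0
            exact hA t m (by omega) (by linear_combination h0))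
          have h2 : (d t : k) * ((-(m : ℤ) : ℤ) : k) +
              (((κ t + 1 : ℕ) : k) + a t * (algebraMap ℂ k s0 + ε)) =
              algebraMap ℂ k (-(d t * m) + (((κ t + 1 : ℕ) : ℂ) + a t * s0)) + ε * a t := by
            rw [map_add, map_add, map_neg, map_mul, map_mul, map_natCast, map_natCast,
              map_natCast, map_natCast]
            push_cast
            ring
          rw [h2]
          exact h1)
      refine ⟨g, hg0, hg, fun ht l hl => ?_⟩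
      refine g_eps ε ((d t : k) * algebraMap ℂ k (b t)) ?_ g (d t) _ ?_ hg _ hl
      · have h1 := hunit (d t * b t) 0 (mul_ne_zero (Nat.cast_ne_zero.2 (hd t)) hbt)
        rwa [mul_zero, add_zero, map_mul, map_natCast] at h1
      · refine ⟨a t, ?_⟩
        have h1 := congrArg (algebraMap ℂ k) (hT t ht)
        rw [map_add, map_mul, map_natCast, map_natCast, map_zero] at h1
        linear_combination h1
    · refine ⟨fun l => if l = 0 then 1 else 0, if_pos rfl, fun l => ?_, fun _ l hl => ?_⟩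
      · rw [hz, hbt, map_zero, mul_zero, zero_mul, add_zero]
        by_cases hl : l = 0
        · rw [hl, Int.cast_zero, mul_zero, zero_mul]
        · simp only [if_neg hl, mul_zero]
      · refine ⟨0, ?_⟩
        simp only [if_neg (show l ≠ 0 by omega), mul_zero]
  choose g hg0 hg hg2 using h
  exact ⟨g, hg0, hg, hg2⟩

section Cases

variable (e : σ → ℕ) (he : ∀ t, e t ≠ 0) (D : ℕ) (hD0 : D ≠ 0) (d : σ → ℕ) (hd : ∀ t, d t ≠ 0)
  (hD : ∀ t, e t * d t = D) (b : σ → ℂ)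
  (ξ : σ → MvPowerSeries σ ℂ) (κ a : σ → ℕ) (U : MvPowerSeries σ ℂ)
  (hU : MvPowerSeries.constantCoeff U ≠ 0)
  (hJ : (Matrix.of fun t i => MvPowerSeries.pderiv ℂ t (ξ i)).det =
      (∏ t, MvPowerSeries.X t ^ κ t) * U)
  (f0 f1 : MvPolynomial σ ℂ) (h0 h1 : MvPowerSeries σ ℂ)
  (hf0 : MvPolynomial.aeval ξ f0 = (∏ t, MvPowerSeries.X t ^ a t) * h0)
  (hf1 : MvPolynomial.aeval ξ f1 = (∏ t, MvPowerSeries.X t ^ a t) * h1)
  (hh1 : MvPowerSeries.constantCoeff h1 = 1)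
  (hb' : ∀ t, MvPowerSeries.coeff (Finsupp.single t (d t)) h0 = b t)
  (hh : ∀ μ, MvPowerSeries.coeff μ h0 ≠ 0 → D < wt e μ ∨ ∃ t, μ = Finsupp.single t (d t))
  {ι : Type} [Fintype ι] [DecidableEq ι]
  (fj : ι → MvPolynomial σ ℂ) (hj : ι → MvPowerSeries σ ℂ)
  (hfj : ∀ j, MvPolynomial.aeval ξ (fj j) = (∏ t, MvPowerSeries.X t ^ a t) * hj j)
  (ε : k) (hunit : ∀ (r : ℂ) (x : k), r ≠ 0 → IsUnit (algebraMap ℂ k r + ε * x))
  (s0 : ℂ)
  (hb : ∀ t, b t ≠ 0 ∨ (b t = 0 ∧ ((κ t + 1 : ℕ) : k) + a t * (algebraMap ℂ k s0 + ε) = 0))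
  (T : Finset σ)
  (hTa : ∀ t ∈ T, a t ≠ 0) (hT : ∀ t ∈ T, ((κ t + 1 : ℕ) : ℂ) + a t * s0 = 0)
  (hA : ∀ t, ∀ n : ℕ, 1 ≤ n → ((κ t + 1 : ℕ) : ℂ) + a t * s0 ≠ d t * n)

include he hD0 hd hD hb hU hJ hf0 hf1 hh1 hb' hh hfj hunit hTa hT hA in
/-- **First case, for ideals.** -/
theorem case_A2 (hs0 : ∀ n : ℕ, -s0 + n ≠ 0)
    (hND : ∀ n : ℕ, 1 ≤ n → -s0 - ∑ t, (((κ t + 1 : ℕ) : ℂ) + a t * s0) / d t ≠ n)
    (hε : ε ^ T.card = 0) (N : ℕ) (S : Finset (List (σ ⊕ σ) × (ι →₀ ℕ)))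
    (hS : ∀ w ∈ S, w.1.length + ∑ j, w.2 j ≤ N)
    (r : List (σ ⊕ σ) × (ι →₀ ℕ) → Polynomial k) (Q : Polynomial k)
    (heq : WEq (pen f0 f1) (qfam fun j => MvPolynomial.map cst (fj j)) (fun β => ∑ j, β j) N S
      (Polynomial.C (algebraMap ℂ k s0 + ε)) Q r) : Q = 0 := by
  obtain ⟨g, hg0, hg, hgT⟩ := exists_g2 ε hunit a κ d b hd s0 hb hA T hT
  obtain ⟨c, hc0, hc⟩ := exists_c ε hunit s0 hs0
  obtain ⟨p, hp0, hp⟩ := exists_p ε hunit (-s0 - ∑ t, (((κ t + 1 : ℕ) : ℂ) + a t * s0) / d t)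
    (-1 - ∑ t, a t * algebraMap ℂ k (d t : ℂ)⁻¹) hND
  have hdi : ∀ t, (d t : k) * algebraMap ℂ k (d t : ℂ)⁻¹ = 1 := by
    intro t
    rw [← map_natCast (algebraMap ℂ k), ← map_mul, mul_inv_cancel₀ (Nat.cast_ne_zero.2 (hd t)),
      map_one]
  have htp : ∀ v, lam d (fun t => κ t + 1) g p c (tp d (fun t => algebraMap ℂ k (b t)) * v) =
      lam d (fun t => κ t + 1) g p c v :=
    lam_tp d (fun t => κ t + 1) g p c hd (fun t => algebraMap ℂ k (d t : ℂ)⁻¹) hdi hg hc hp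
      (zz_eq a κ d s0 ε).symm
  obtain ⟨y, hy, hy0, hyf⟩ := phi_pen (k := k) e he D d b ξ (ZA (fun t => κ t + 1) T)
    (ZA_adm _ T) (ZA_eta _ T) f0 f1 a h0 h1 hf0 hf1 hh1 hd hD hb' hh
  obtain ⟨y', hy', -, hyp⟩ := exists_inv (Bp (ZA (fun t => κ t + 1) T)) y hy0 hy
  obtain ⟨ρ, hρ1, hρ2, hρ⟩ := exists_rho (Bp (ZA (fun t => κ t + 1) T)) y hy0 hy
    (algebraMap ℂ k s0 + ε)
  have hval : ∀ γ, ZA (fun t => κ t + 1) T γ → val d (fun t => κ t + 1) g p c γ = 0 := by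
    intro γ hγ
    by_cases h : Sup d (fun t => κ t + 1) γ
    · obtain ⟨x, hx⟩ := prod_eps ε T (fun t => g t (lt d (fun t => κ t + 1) γ t)) (fun t ht =>
        hgT t ht _ (lt_pos d (fun t => κ t + 1) hd γ h t (hγ t ht)))
      rw [val_of d _ g p c γ h, hx, hε]
      ring
    · exact val_not d _ g p c γ h
  have h1 := chart_core2 e he D d (fun t => algebraMap ℂ k (b t)) ξ κ a U hJ (pen f0 f1)
    (qfam fun j => MvPolynomial.map cst (fj j)) (fun β => ∑ j, β j) _ y y' ρ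
    hyf (algebraMap ℂ k s0 + ε) hd hy' hρ g p c hg hc htp (fun i q' =>
      zero_types e he D d _ ξ κ a T hTa fj hj hfj g p c hval y y' ρ _ hy hyp hρ2
        (SS_mem_Rp e _ (ZA_adm _ T) he U) i q') N S hS r Q heq
  have h2 := isUnit_PL e he d κ g p c U hU ρ hρ1 hg0 hp0 hc0
  exact aeval_X_pow_eq_zero D hD0 Q ((IsUnit.mul_left_eq_zero h2).1 h1)

end Cases

end Pool.Agent.H63.VL
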