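import Pool.Agent.H63.VL.Core

set_option autoImplicit false
set_option linter.unusedSectionVars false

/-! # The engine in a chart, for ideals: the exceptional case -/

namespace Pool.Agent.H63.VL

open PowerSeries Pool.Agent.H63.VH

variable {k σ : Type} [CommRing k] [Algebra ℂ k] [Fintype σ] [DecidableEq σ]

section Cases

variable (e : σ → ℕ) (he : ∀ t, e t ≠ 0) (D : ℕ) (hD0 : D ≠ 0) (d : σ → ℕ) (hd : ∀ t, d t ≠ 0)
  (hD : ∀ t, e t * d t = D) (b : σ → ℂ)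
  (ξ : σ → MvPowerSeries σ ℂ) (κ a : σ → ℕ) (U : MvPowerSeries σ ℂ)
  (hU : MvPowerSeries.constantCoeff U ≠ 0)
  (hJ : (Matrix.of fun t i => MvPowerSeries.pderiv ℂ t (ξ i)).det =
      (∏ t, MvPowerSeries.X t ^ κ t) * U)
  (f0 f1 : MvPolynomial σ ℂ) (h0 h1 : MvPowerSeries σ ℂ)
  (hf0 : MvPolynomial.aeval ξ f0 = (∏ t, MvPowerSeries.X t ^ a t) * h0)
  (hf1 : MvPolynomial.aeval ξ f1 = (∏ t, MvPowerSeries.X t ^ a t) * h1)
  (hh1 : MvPowerSeries.constantCoeff h1 = 1)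
  (hb' : ∀ t, MvPowerSeries.coeff (Finsupp.single t (d t)) h0 = b t)
  (hh : ∀ μ, MvPowerSeries.coeff μ h0 ≠ 0 → D < wt e μ ∨ ∃ t, μ = Finsupp.single t (d t))
  {ι : Type} [Fintype ι] [DecidableEq ι]
  (fj : ι → MvPolynomial σ ℂ) (hj : ι → MvPowerSeries σ ℂ)
  (hfj : ∀ j, MvPolynomial.aeval ξ (fj j) = (∏ t, MvPowerSeries.X t ^ a t) * hj j)
  (ε : k) (hunit : ∀ (r : ℂ) (x : k), r ≠ 0 → IsUnit (algebraMap ℂ k r + ε * x))
  (s0 : ℂ) (hb : ∀ t, b t ≠ 0)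
  (T : Finset σ)
  (hTa : ∀ t ∈ T, a t ≠ 0) (hT : ∀ t ∈ T, ((κ t + 1 : ℕ) : ℂ) + a t * s0 = 0)

include he hD0 hd hD hb hU hJ hf0 hf1 hh1 hb' hh hfj hunit hTa hT in
/-- **Fourth case, for ideals.** -/
theorem case_D2 (hTu : T = Finset.univ) (α : ℕ) (hα : 1 ≤ α) (hs0 : s0 = -(α : ℂ))
    (hε : ε ^ T.card = 0) (N : ℕ) (S : Finset (List (σ ⊕ σ) × (ι →₀ ℕ)))
    (hS : ∀ w ∈ S, w.1.length + ∑ j, w.2 j ≤ N)
    (r : List (σ ⊕ σ) × (ι →₀ ℕ) → Polynomial k) (Q : Polynomial k)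
    (heq : WEq (pen f0 f1) (qfam fun j => MvPolynomial.map cst (fj j)) (fun β => ∑ j, β j) N S
      (Polynomial.C (algebraMap ℂ k s0 + ε)) Q r) :
    Polynomial.C ε * Q = 0 := by
  have hA : ∀ t, ∀ n : ℕ, 1 ≤ n → ((κ t + 1 : ℕ) : ℂ) + a t * s0 ≠ d t * n := by
    intro t n hn
    rw [hT t (hTu ▸ Finset.mem_univ t)]
    exact (mul_ne_zero (Nat.cast_ne_zero.2 (hd t)) (Nat.cast_ne_zero.2 (by omega))).symm
  obtain ⟨g, hg0, hg⟩ := exists_g ε hunit a κ d b hd hb s0 hA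
  obtain ⟨c, hc0, hc⟩ := exists_c ε hunit s0 (fun n => by
    rw [hs0, neg_neg, ← Nat.cast_add]; exact Nat.cast_ne_zero.2 (by omega))
  obtain ⟨x, hx⟩ : ∃ x : k, x = -1 - ∑ t, a t * algebraMap ℂ k (d t : ℂ)⁻¹ := ⟨_, rfl⟩
  obtain ⟨p', hp'0, hp'⟩ := exists_p ε hunit 0 x (fun n hn h => by
    exact Nat.cast_ne_zero.2 (show n ≠ 0 by omega) h.symm)
  have hz0 : -s0 - ∑ t, (((κ t + 1 : ℕ) : ℂ) + a t * s0) / d t = α := by
    rw [Finset.sum_eq_zero fun t _ => by rw [hT t (hTu ▸ Finset.mem_univ t), zero_div], hs0]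
    ring
  obtain ⟨p, hpd⟩ : ∃ p : ℤ → k, p = fun n => p' (n + α) := ⟨_, rfl⟩
  have hp : ∀ n : ℤ, p (n + 1) = (algebraMap ℂ k (-s0 - ∑ t, (((κ t + 1 : ℕ) : ℂ) + a t * s0) / d t)
      + ε * (-1 - ∑ t, a t * algebraMap ℂ k (d t : ℂ)⁻¹) + n) * p n := by
    intro n
    rw [hz0, ← hx, hpd]
    simp only
    have h1 := hp' (n + α)
    rw [show n + 1 + (α : ℤ) = n + α + 1 by ring, h1, map_zero, map_natCast]
    push_cast
    ring
  have hxu : IsUnit x := by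
    have h1 : x = algebraMap ℂ k (-(1 + ∑ t, (a t : ℂ) / d t)) := by
      rw [hx, map_neg, map_add, map_one, map_sum]
      simp only [div_eq_mul_inv, map_mul, map_natCast]
      ring
    rw [h1]
    refine (IsUnit.mk0 _ (neg_ne_zero.2 ?_)).map _
    have h2 : (0 : ℝ) < 1 + ∑ t, (a t : ℝ) / d t := by positivity
    have h3 : (1 + ∑ t, (a t : ℂ) / d t) = ((1 + ∑ t, (a t : ℝ) / d t : ℝ) : ℂ) := by
      push_cast
      rfl
    rw [h3]
    exact_mod_cast h2.ne'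
  have hp1 : ∀ n : ℕ, ∃ w, IsUnit w ∧ p' ((n : ℤ) + 1) = ε * w := by
    intro n
    induction n with
    | zero =>
      refine ⟨x, hxu, ?_⟩
      have := hp' 0
      rw [hp'0, map_zero] at this
      push_cast at this ⊢
      rw [this]
      ring
    | succ n ih =>
      obtain ⟨w, hw, hw'⟩ := ih
      have h1 := hp' ((n : ℤ) + 1)
      rw [hw'] at h1
      refine ⟨(algebraMap ℂ k ((n : ℂ) + 1) + ε * x) * w,
        (hunit _ _ (Nat.cast_add_one_ne_zero n)).mul hw, ?_⟩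
      push_cast at h1 ⊢
      rw [h1]
      ring
  obtain ⟨x0, hx0, hp0⟩ : ∃ w, IsUnit w ∧ p 0 = ε * w := by
    obtain ⟨w, hw, hw'⟩ := hp1 (α - 1)
    refine ⟨w, hw, ?_⟩
    rw [hpd, ← hw']
    simp only
    congr 1
    omega
  have hpeps : ∀ n : ℤ, -(α : ℤ) + 1 ≤ n → ∃ w, p n = ε * w := by
    intro n hn
    obtain ⟨w, -, hw'⟩ := hp1 (n + α - 1).toNat
    refine ⟨w, ?_⟩
    rw [hpd, ← hw']
    simp only
    congr 1
    omega
  have hdi : ∀ t, (d t : k) * algebraMap ℂ k (d t : ℂ)⁻¹ = 1 := by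
    intro t
    rw [← map_natCast (algebraMap ℂ k), ← map_mul, mul_inv_cancel₀ (Nat.cast_ne_zero.2 (hd t)),
      map_one]
  have htp : ∀ v, lam d (fun t => κ t + 1) g p c (tp d (fun t => algebraMap ℂ k (b t)) * v) =
      lam d (fun t => κ t + 1) g p c v :=
    lam_tp d (fun t => κ t + 1) g p c hd (fun t => algebraMap ℂ k (d t : ℂ)⁻¹) hdi hg hc hp
      (zz_eq a κ d s0 ε).symm
  obtain ⟨y, hy, hy0, hyf⟩ := phi_pen (k := k) e he D d b ξ (ZA (fun t => κ t + 1) T)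
    (ZA_adm _ T) (ZA_eta _ T) f0 f1 a h0 h1 hf0 hf1 hh1 hd hD hb' hh
  obtain ⟨y', hy', -, hyp⟩ := exists_inv (Bp (ZA (fun t => κ t + 1) T)) y hy0 hy
  obtain ⟨ρ, hρ1, hρ2, hρ⟩ := exists_rho (Bp (ZA (fun t => κ t + 1) T)) y hy0 hy
    (algebraMap ℂ k s0 + ε)
  have hgeps : ∀ t (l : ℤ), 1 ≤ l → ∃ w, g t l = ε * w := by
    intro t l hl
    refine g_eps ε ((d t : k) * algebraMap ℂ k (b t)) ?_ (g t) (d t) _ ?_ (hg t) _ hl
    · have h1 := hunit (d t * b t) 0 (mul_ne_zero (Nat.cast_ne_zero.2 (hd t)) (hb t))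
      rwa [mul_zero, add_zero, map_mul, map_natCast] at h1
    · refine ⟨a t, ?_⟩
      have h1 := congrArg (algebraMap ℂ k) (hT t (hTu ▸ Finset.mem_univ t))
      rw [map_add, map_mul, map_natCast, map_natCast, map_zero] at h1
      linear_combination h1
  have hval : ∀ γ, ZA (fun t => κ t + 1) T γ → val d (fun t => κ t + 1) g p c γ = 0 := by
    intro γ hγ
    by_cases h : Sup d (fun t => κ t + 1) γ
    · obtain ⟨x, hx⟩ := prod_eps ε T (fun t => g t (lt d (fun t => κ t + 1) γ t)) (fun t ht =>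
        hgeps t _ (lt_pos d (fun t => κ t + 1) hd γ h t (hγ t ht)))
      rw [val_of d _ g p c γ h, hx, hε]
      ring
    · exact val_not d _ g p c γ h
  have hceps : ∀ m : ℤ, m ≤ -(α : ℤ) → ∃ y, c m = ε * y := by
    refine c_eps' ε α c fun m => ?_
    rw [← hc m, hs0, map_neg, map_natCast]
  have h1 := chart_core2 e he D d (fun t => algebraMap ℂ k (b t)) ξ κ a U hJ (pen f0 f1)
    (qfam fun j => MvPolynomial.map cst (fj j)) (fun β => ∑ j, β j) _ y y' ρ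
    hyf (algebraMap ℂ k s0 + ε) hd hy' hρ g p c hg hc htp (fun i q' =>
      zero_types e he D d _ ξ κ a T hTa fj hj hfj g p c hval y y' ρ _ hy hyp hρ2
        (SS_mem_Rp e _ (ZA_adm _ T) he U) i q') N S hS r Q heq
  -- the values
  have hZC : ∀ γ, ZC (fun t => κ t + 1) γ → val d (fun t => κ t + 1) g p c γ ∈ Ideal.span {ε} := by
    intro γ hγ
    rw [Ideal.mem_span_singleton]
    by_cases h : Sup d (fun t => κ t + 1) γ
    · rw [val_of d _ g p c γ h]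
      by_cases h2 : ∃ t, 1 ≤ lt d (fun t => κ t + 1) γ t
      · obtain ⟨t, ht⟩ := h2
        obtain ⟨w, hw⟩ := hgeps t _ ht
        rw [← Finset.mul_prod_erase _ _ (Finset.mem_univ t), hw]
        exact ⟨w * (∏ x ∈ Finset.univ.erase t, g x (lt d (fun t => κ t + 1) γ x)) *
          p (-γ.2 - ∑ t, lt d (fun t => κ t + 1) γ t) * c (-γ.2), by ring⟩
      · have h3 : ∑ t, lt d (fun t => κ t + 1) γ t = 0 := by
          refine Finset.sum_eq_zero fun t _ => ?_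
          have h4 := lt_nonneg d (fun t => κ t + 1) γ t (hγ t)
          have h5 : ¬ 1 ≤ lt d (fun t => κ t + 1) γ t := fun h => h2 ⟨t, h⟩
          omega
        rw [h3, sub_zero]
        rcases le_or_gt (-(α : ℤ) + 1) (-γ.2) with h4 | h4
        · obtain ⟨w, hw⟩ := hpeps _ h4
          rw [hw]
          exact ⟨(∏ t, g t (lt d (fun t => κ t + 1) γ t)) * w * c (-γ.2), by ring⟩
        · obtain ⟨w, hw⟩ := hceps _ (show -γ.2 ≤ -(α : ℤ) by omega)
          rw [hw]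
          exact ⟨(∏ t, g t (lt d (fun t => κ t + 1) γ t)) * p (-γ.2) * w, by ring⟩
    · rw [val_not d _ g p c γ h]
      exact dvd_zero _
  obtain ⟨P, hP⟩ : ∃ P, P = PL (lam d (fun t => κ t + 1) g p c)
      (C (mon (fun t => ((κ t + 1 : ℕ) : ℤ), 0)) * SS e he U * ρ) := ⟨_, rfl⟩
  have hPn : ∀ n, ∃ v, coeff n P = ε * v := by
    intro n
    have h2 : SS e he U * ρ ∈ (Rp (ZC (fun t => κ t + 1)) : Subalgebra k (BB k σ)⟦X⟧) := by
      refine (Rp _).mul_mem (fun m => ?_) (fun m => ?_)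
      · exact Bp_shift _ _ (SS_mem_Rp e _ (ZA_adm _ Finset.univ) he U m)
      · exact Bp_shift _ _ (hTu ▸ hρ2 m)
    have h3 := lam_Ip (ZC (fun t => κ t + 1)) (Ideal.span {ε}) d _ g p c hZC _ (h2 n
      (mon (fun t => ((κ t + 1 : ℕ) : ℤ), 0)) (Submodule.subset_span ⟨_, fun t => le_refl _, rfl⟩))
    obtain ⟨v, hv⟩ := Ideal.mem_span_singleton.1 h3
    refine ⟨v, ?_⟩
    rw [hP, coeff_PL, mul_assoc, coeff_C_mul, mul_comm, hv]
  choose v hv using hPn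
  have hP0 : coeff 0 P = ε * (algebraMap ℂ k (MvPowerSeries.constantCoeff U) * x0) := by
    rw [hP, const_PL e he d κ g p c U ρ hρ1, Finset.prod_congr rfl fun t _ => hg0 t, hp0, hc0,
      Finset.prod_const_one]
    ring
  obtain ⟨V, hV⟩ : ∃ V : k⟦X⟧, V = PowerSeries.mk fun n =>
    if n = 0 then algebraMap ℂ k (MvPowerSeries.constantCoeff U) * x0 else v n := ⟨_, rfl⟩
  have hPV : P = C ε * V := by
    ext n
    rw [coeff_C_mul, hV, coeff_mk]
    split_ifs with hn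
    · rw [hn, hP0]
    · exact hv n
  have hVu : IsUnit V := by
    rw [PowerSeries.isUnit_iff_constantCoeff, ← coeff_zero_eq_constantCoeff_apply, hV, coeff_mk,
      if_pos rfl]
    exact ((IsUnit.mk0 _ hU).map _).mul hx0
  rw [← hP, hPV, ← mul_assoc] at h1
  have h2 := (IsUnit.mul_left_eq_zero hVu).1 h1
  refine aeval_X_pow_eq_zero D hD0 _ ?_
  rw [map_mul, Polynomial.aeval_C, mul_comm]
  exact h2

end Cases

end Pool.Agent.H63.VL
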