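import Pool.Agent.H63.VH.Engine
import Pool.Agent.H63.VG.Word

set_option autoImplicit false
set_option linter.unusedSectionVars false

/-! # The engine: words of differential operators which are applied to `q f ^ (s + 1 - l)` -/

namespace Pool.Agent.H63.VL

open MvPolynomial Pool.Agent.H63.VG Pool.Agent.H628R4.TP

section Words

variable {σ A : Type} [CommRing A]

/-- The polynomial `q_w` with `w (q f ^ (s0 + 1 - l)) f ^ |w| = q_w f ^ (s0 + 1 - l)`; here `w` is a
word in the letters `inl i` (multiplication by `X i`) and `inr i` (partial derivative). -/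
noncomputable def q2 (f : MvPolynomial σ A) (s0 : A) (q : MvPolynomial σ A) (l : ℕ) :
    List (σ ⊕ σ) → MvPolynomial σ A
  | [] => q
  | Sum.inl i :: w => X i * f * q2 f s0 q l w
  | Sum.inr i :: w => f * pderiv i (q2 f s0 q l w) +
      C (s0 + 1 - ((w.length + l : ℕ) : A)) * pderiv i f * q2 f s0 q l w

theorem map_q2 {A' : Type} [CommRing A'] (g : A →+* A') (f : MvPolynomial σ A) (s0 : A)
    (q : MvPolynomial σ A) (l : ℕ) (w : List (σ ⊕ σ)) :
    map g (q2 f s0 q l w) = q2 (map g f) (g s0) (map g q) l w := by
  induction w with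
  | nil => simp [q2]
  | cons a w ih =>
    cases a with
    | inl i => simp [q2, ih]
    | inr i => simp only [q2, map_add, map_mul, ← ih, pderiv_map, map_C, map_sub, map_one,
        map_natCast]

theorem act_q2 (f q : MvPolynomial σ ℂ) (l s : ℕ) (hl : l ≤ s + 1) (w : List (σ ⊕ σ)) :
    act w (q * f ^ (s + 1 - l)) * f ^ w.length = q2 f (s : ℂ) q l w * f ^ (s + 1 - l) := by
  obtain ⟨m, hm⟩ : ∃ m, m = s + 1 - l := ⟨_, rfl⟩
  have hmc : (s : ℂ) + 1 - (l : ℂ) = m := by
    have h1 : m + l = s + 1 := by omega
    have h2 := congrArg (fun n : ℕ => (n : ℂ)) h1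
    push_cast at h2
    linear_combination -h2
  rw [← hm]
  induction w with
  | nil => simp [act, q2]
  | cons a w ih =>
    cases a with
    | inl i =>
      simp only [act, q2, List.length_cons, pow_succ, Module.End.mul_apply, LinearMap.mulLeft_apply]
      linear_combination (X i * f) * ih
    | inr i =>
      simp only [act, q2, List.length_cons, Module.End.mul_apply]
      set g := act w (q * f ^ m) with hg
      have h1 := congrArg (pderiv i) ih
      rw [Derivation.leibniz, Derivation.leibniz, Derivation.leibniz_pow,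
        Derivation.leibniz_pow] at h1
      simp only [smul_eq_mul, nsmul_eq_mul] at h1
      have e1 : ∀ n : ℕ, (n : MvPolynomial σ ℂ) * (f ^ (n - 1) * f) = n * f ^ n := by
        intro n
        rcases Nat.eq_zero_or_pos n with h | h
        · rw [h]; simp
        · rw [← pow_succ]
          congr 2
          omega
      have e2 : (C ((s : ℂ) + 1 - ((w.length + l : ℕ) : ℂ)) : MvPolynomial σ ℂ) =
          (m : MvPolynomial σ ℂ) - (w.length : MvPolynomial σ ℂ) := by
        have h2 : (s : ℂ) + 1 - ((w.length + l : ℕ) : ℂ) = (m : ℂ) - (w.length : ℂ) := by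
          push_cast
          linear_combination hmc
        rw [h2, map_sub, map_natCast, map_natCast]
      change pderiv i g * f ^ (w.length + 1) = _
      rw [e2, pow_succ f w.length]
      have e3 := e1 w.length
      have e4 := e1 m
      linear_combination f * h1 - g * pderiv i f * e3 + q2 f (s : ℂ) q l w * pderiv i f * e4 -
        (w.length : MvPolynomial σ ℂ) * pderiv i f * ih

end Words

section Engine

variable {σ A R W : Type} [Fintype σ] [DecidableEq σ] [CommRing A] [CommRing R] [Algebra ℂ R]
  [AddCommGroup W]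

theorem engine2 (θ : σ → Derivation ℂ R R) (hcomm : ∀ s t u, θ s (θ t u) = θ t (θ s u))
    (φ : MvPolynomial σ A →+* R)
    (hφ : ∀ t p, θ t (φ p) = ∑ i, θ t (φ (X i)) * φ (pderiv i p))
    (f : MvPolynomial σ A) (s0 : A) (ζ : R) (hs0 : φ (C s0) = ζ)
    (e G H : R) (hf : φ f = e * G) (hH : G * H = 1) (he : ∀ t, θ t e = 0)
    (T : R →+ W) (hTe : ∀ u, T u = 0 → T (e * u) = 0)
    (hT : ∀ t u, T (θ t u + (ζ * (θ t G * H)) * u) = 0) (q : MvPolynomial σ A) (l : ℕ)
    (h0 : ∀ p, T ((Matrix.of fun t k => θ t (φ (X k))).det * φ p * (φ q * G * H ^ l)) = 0)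
    (w : List (σ ⊕ σ)) (p : MvPolynomial σ A) :
    T ((Matrix.of fun t k => θ t (φ (X k))).det * φ p *
      (φ (q2 f s0 q l w) * G * H ^ (w.length + l))) = 0 := by
  set M : Matrix σ σ R := Matrix.of fun t k => θ t (φ (X k)) with hM
  have hθH : ∀ t, θ t H = -(H ^ 2 * θ t G) := by
    intro t
    have h1 : θ t (G * H) = 0 := by rw [hH, Derivation.map_one_eq_zero]
    rw [Derivation.leibniz, smul_eq_mul, smul_eq_mul] at h1
    have h2 : H * (G * θ t H + H * θ t G) = 0 := by rw [h1, mul_zero]
    linear_combination h2 - θ t H * hH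
  induction w generalizing p with
  | nil =>
    have := h0 p
    simpa [q2] using this
  | cons a w ih =>
    cases a with
    | inl i =>
      have h1 := hTe _ (ih (p * X i))
      rw [← h1]
      congr 1
      have e1 : (Sum.inl i :: w : List (σ ⊕ σ)).length + l = w.length + l + 1 := by
        rw [List.length_cons]; omega
      rw [e1]
      simp only [q2, map_mul, pow_succ, hf]
      linear_combination (M.det * φ p * φ (X i) * e * φ (q2 f s0 q l w) * G *
        H ^ (w.length + l)) * hH
    | inr i =>
      set Q := q2 f s0 q l w with hQ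
      set n := w.length + l with hn
      set u : R := φ p * φ Q * G * H ^ n with hu
      have h1 := hTe _ (T_piola θ hcomm T (fun t => ζ * (θ t G * H)) hT
        (fun k => φ (X k)) i u)
      have h2 := hTe _ (ih (pderiv i p))
      have hθu : ∀ t, θ t u + ζ * (θ t G * H) * u =
          θ t (φ p) * (φ Q * G * H ^ n) + θ t (φ Q) * (φ p * G * H ^ n) +
          (ζ + 1 - n) * (θ t G * (φ p * φ Q * H ^ n)) := by
        intro t
        have h3 : θ t (H ^ n) = -(n * H ^ (n + 1) * θ t G) := by
          rw [Derivation.leibniz_pow, hθH t, nsmul_eq_mul, smul_eq_mul]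
          rcases Nat.eq_zero_or_pos n with h0 | h0
          · rw [h0]; simp
          · obtain ⟨m, hm⟩ : ∃ m, n = m + 1 := ⟨n - 1, by omega⟩
            rw [hm]
            simp only [Nat.add_sub_cancel]
            ring
        rw [hu, Derivation.leibniz, Derivation.leibniz, Derivation.leibniz, h3]
        simp only [smul_eq_mul]
        rw [pow_succ]
        linear_combination (-(n : R) * φ p * φ Q * H ^ n * θ t G +
          ζ * θ t G * φ p * φ Q * H ^ n) * hH
      have hG : e * ∑ t, M.adjugate i t * θ t G = M.det * φ (pderiv i f) := by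
        rw [← adj_apply θ φ hφ i f, Finset.mul_sum]
        refine Finset.sum_congr rfl fun t _ => ?_
        rw [hf, Derivation.leibniz, he t, smul_zero, add_zero, smul_eq_mul]
        ring
      have hsum : ∑ t, M.adjugate i t * (θ t u + ζ * (θ t G * H) * u) =
          (∑ t, M.adjugate i t * θ t (φ p)) * (φ Q * G * H ^ n) +
          (∑ t, M.adjugate i t * θ t (φ Q)) * (φ p * G * H ^ n) +
          (ζ + 1 - n) * ((∑ t, M.adjugate i t * θ t G) * (φ p * φ Q * H ^ n)) := by
        rw [Finset.sum_mul, Finset.sum_mul, Finset.sum_mul, Finset.mul_sum,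
          ← Finset.sum_add_distrib, ← Finset.sum_add_distrib]
        refine Finset.sum_congr rfl fun t _ => ?_
        rw [hθu t]
        ring
      rw [hsum, adj_apply θ φ hφ i p, adj_apply θ φ hφ i Q] at h1
      have e1 : (Sum.inr i :: w : List (σ ⊕ σ)).length + l = n + 1 := by
        rw [List.length_cons]; omega
      have h3 : M.det * φ p * (φ (q2 f s0 q l (Sum.inr i :: w)) * G *
          H ^ ((Sum.inr i :: w : List (σ ⊕ σ)).length + l)) =
          e * (M.det * φ (pderiv i p) * (φ Q * G * H ^ n) +
            M.det * φ (pderiv i Q) * (φ p * G * H ^ n) +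
          (ζ + 1 - n) * ((∑ t, M.adjugate i t * θ t G) * (φ p * φ Q * H ^ n)))
          - e * (M.det * φ (pderiv i p) * (φ Q * G * H ^ n)) := by
        have h4 : φ (q2 f s0 q l (Sum.inr i :: w)) = e * G * φ (pderiv i Q) +
            (ζ + 1 - n) * φ (pderiv i f) * φ Q := by
          simp only [q2, ← hQ, map_add, map_mul, hf, hs0, map_sub, map_natCast, map_one, ← hn]
        rw [h4, e1, pow_succ]
        linear_combination (-(ζ + 1 - n) * (φ p * φ Q * H ^ n)) * hG +
          (M.det * φ p * H ^ n * (e * G * φ (pderiv i Q) +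
            (ζ + 1 - n) * φ (pderiv i f) * φ Q)) * hH
      rw [h3, map_sub, h1, h2, sub_zero]

end Engine

end Pool.Agent.H63.VL
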