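import Pool.Agent.H63.VL.Words
import Pool.Agent.H63.VH.Red

set_option autoImplicit false
set_option linter.unusedSectionVars false

/-! # Very general ideals: the reduction, with multiplicities -/

namespace Pool.Agent.H63.VL

open MvPolynomial Pool.Agent.H628R4.TP Pool.Agent.H63.VG Pool.Agent.H63.VH

section Descent

variable {σ κ : Type}

/-- the equation in terms of words -/
def WEq {A : Type} [CommRing A] (f : MvPolynomial σ A) (q : κ → MvPolynomial σ A) (L : κ → ℕ)
    (N : ℕ) (S : Finset (List (σ ⊕ σ) × κ)) (s P : A) (c : List (σ ⊕ σ) × κ → A) : Prop :=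
  C P * f ^ N = ∑ w ∈ S, C (c w) * f ^ (N + 1 - (w.1.length + L w.2)) *
    q2 f s (q w.2) (L w.2) w.1

theorem WEq.map {A B : Type} [CommRing A] [CommRing B] {f : MvPolynomial σ A}
    {q : κ → MvPolynomial σ A} {L : κ → ℕ} {N : ℕ} {S : Finset (List (σ ⊕ σ) × κ)} {s P : A}
    {c : List (σ ⊕ σ) × κ → A} (h : WEq f q L N S s P c) (g : A →+* B) :
    WEq (MvPolynomial.map g f) (fun i => MvPolynomial.map g (q i)) L N S (g s) (g P)
      (fun w => g (c w)) := by
  have h1 := congrArg (MvPolynomial.map g) h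
  rw [map_mul, map_C, map_pow, map_sum] at h1
  rw [WEq, h1]
  refine Finset.sum_congr rfl fun w _ => ?_
  rw [map_mul (MvPolynomial.map g) (_ * _), map_mul (MvPolynomial.map g) (C _), map_C, map_pow,
    map_q2]

/-- the descent of a functional equation -/
theorem descent_poly2 (K : Subfield ℂ) (f : MvPolynomial σ K) (q : κ → MvPolynomial σ K)
    (L : κ → ℕ) (b : Polynomial ℂ)
    (hb0 : b ≠ 0) (z : K) (N : ℕ) (S : Finset (List (σ ⊕ σ) × κ))
    (c : List (σ ⊕ σ) × κ → Polynomial ℂ)
    (h : WEq (map Polynomial.C (map (algebraMap K ℂ) f))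
      (fun i => map Polynomial.C (map (algebraMap K ℂ) (q i))) L N S Polynomial.X b c) :
    ∃ (b' : Polynomial K) (c' : List (σ ⊕ σ) × κ → Polynomial K), b'.eval z = 1 ∧
      WEq (map Polynomial.C f) (fun i => map Polynomial.C (q i)) L N S Polynomial.X
        ((Polynomial.X - Polynomial.C z) ^ b.rootMultiplicity (z : ℂ) * b') c' := by
  obtain ⟨b1, hb1, hb2⟩ := Polynomial.exists_eq_pow_rootMultiplicity_mul_and_not_dvd b hb0 (z : ℂ)
  have hb3 : b1.eval (z : ℂ) ≠ 0 := fun h0 => hb2 (Polynomial.dvd_iff_isRoot.2 h0)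
  obtain ⟨l, hl⟩ := exists_functional K _ hb3
  have hLb : Lc l b = (Polynomial.X - Polynomial.C z) ^ b.rootMultiplicity (z : ℂ) * Lc l b1 := by
    have h1 : ((Polynomial.X - Polynomial.C z) ^ b.rootMultiplicity (z : ℂ) :
        Polynomial K).map (algebraMap K ℂ) =
        (Polynomial.X - Polynomial.C (z : ℂ)) ^ b.rootMultiplicity (z : ℂ) := by
      rw [Polynomial.map_pow, Polynomial.map_sub, Polynomial.map_X, Polynomial.map_C]
      rfl
    conv_lhs => rw [hb1]
    rw [mul_comm, ← h1, Lc_mul, mul_comm]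
  refine ⟨Lc l b1, fun w => Lc l (c w), by rw [eval_Lc, hl], ?_⟩
  rw [← hLb]
  have hf : ∀ f : MvPolynomial σ K, map Polynomial.C (map (algebraMap K ℂ) f) =
      map (Polynomial.mapRingHom (algebraMap K ℂ)) (map Polynomial.C f) := by
    intro f
    rw [map_map, map_map]
    congr 2
    ext1 r
    simp
  rw [WEq] at h ⊢
  simp only [hf] at h
  refine MvPolynomial.ext _ _ fun μ => ?_
  have h1 : Lc l (coeff μ _) = Lc l (coeff μ _) := congrArg (fun p => Lc l (coeff μ p)) h
  have h2 : ∀ (r : Polynomial ℂ) (p : MvPolynomial σ (Polynomial K)),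
      Lc l (coeff μ (C r * map (Polynomial.mapRingHom (algebraMap K ℂ)) p)) =
      Lc l r * coeff μ p := by
    intro r p
    rw [coeff_C_mul, coeff_map, Polynomial.coe_mapRingHom, Lc_mul]
  rw [← map_pow, h2] at h1
  rw [coeff_C_mul, h1, coeff_sum, coeff_sum, Lc_sum]
  refine Finset.sum_congr rfl fun w _ => ?_
  have h3 : (Polynomial.X : Polynomial ℂ) =
      Polynomial.mapRingHom (algebraMap K ℂ) Polynomial.X := by simp
  rw [← map_pow, h3, ← map_q2, mul_assoc, ← map_mul, h2, mul_assoc, coeff_C_mul]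

theorem map_q2_poly {A K : Type} [CommRing A] [CommRing K] (g : A →+* K) (f q : MvPolynomial σ A)
    (l : ℕ) (w : List (σ ⊕ σ)) : map (Polynomial.mapRingHom g)
      (q2 (map Polynomial.C f) Polynomial.X (map Polynomial.C q) l w) =
      q2 (map Polynomial.C (map g f)) Polynomial.X (map Polynomial.C (map g q)) l w := by
  rw [map_q2, map_C_poly, map_C_poly]
  simp

theorem clear_den2 {A K : Type} [CommRing A] [IsDomain A] [Field K] (g : A →+* K)
    (hinj : Function.Injective g) (hfrac : ∀ x : K, ∃ n d : A, g d ≠ 0 ∧ x * g d = g n)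
    (U : MvPolynomial σ A) (q : κ → MvPolynomial σ A) (L : κ → ℕ) (z : A) (N ν : ℕ)
    (S : Finset (List (σ ⊕ σ) × κ)) (b' : Polynomial K)
    (c' : List (σ ⊕ σ) × κ → Polynomial K) (hb'z : b'.eval (g z) = 1)
    (hc' : WEq (map Polynomial.C (map g U)) (fun i => map Polynomial.C (map g (q i))) L N S
      Polynomial.X ((Polynomial.X - Polynomial.C (g z)) ^ ν * b') c') :
    ∃ (D1 : Polynomial A) (r : List (σ ⊕ σ) × κ → Polynomial A), D1.eval z ≠ 0 ∧
      WEq (map Polynomial.C U) (fun i => map Polynomial.C (q i)) L N S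
        Polynomial.X ((Polynomial.X - Polynomial.C z) ^ ν * D1) r := by
  classical
  choose δ P hδ hP using exists_den g hfrac
  refine ⟨Polynomial.C (∏ w ∈ S, δ (c' w)) * P b', fun w =>
    Polynomial.C (δ b' * ∏ w' ∈ S.erase w, δ (c' w')) * P (c' w), ?_, ?_⟩
  · intro h2
    have h3 := congrArg g h2
    rw [map_zero, Polynomial.eval_mul, Polynomial.eval_C, map_mul, map_prod,
      ← Polynomial.eval_map_apply, hP, Polynomial.eval_mul, Polynomial.eval_C, hb'z, mul_one] at h3
    exact mul_ne_zero (Finset.prod_ne_zero_iff.2 fun w _ => hδ _) (hδ _) h3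
  · rw [WEq] at hc' ⊢
    refine map_injective (Polynomial.mapRingHom g) (Polynomial.map_injective g hinj) ?_
    have hmm := map_C_poly g U
    rw [map_mul, map_C, map_pow, hmm, map_sum]
    simp only [Polynomial.coe_mapRingHom, Polynomial.map_mul, Polynomial.map_pow,
      Polynomial.map_sub, Polynomial.map_X, Polynomial.map_C, hP]
    have h2 : C ((Polynomial.X - Polynomial.C (g z)) ^ ν *
        (Polynomial.C (g (∏ w ∈ S, δ (c' w))) * (Polynomial.C (g (δ b')) * b'))) *
        (map Polynomial.C (map g U)) ^ N =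
        C (Polynomial.C (g (∏ w ∈ S, δ (c' w))) * Polynomial.C (g (δ b'))) *
        (C ((Polynomial.X - Polynomial.C (g z)) ^ ν * b') *
          (map Polynomial.C (map g U)) ^ N) := by
      simp only [map_mul]
      ring
    rw [h2, hc', Finset.mul_sum]
    refine Finset.sum_congr rfl fun w hw => ?_
    rw [map_mul (map (Polynomial.mapRingHom g)) (_ * _),
      map_mul (map (Polynomial.mapRingHom g)) (C _), map_C,
      map_pow (map (Polynomial.mapRingHom g)), hmm, map_q2_poly]
    simp only [Polynomial.coe_mapRingHom, Polynomial.map_mul, Polynomial.map_C, hP]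
    rw [← Finset.mul_prod_erase S _ hw]
    simp only [map_mul]
    ring

/-- the functional equation for very general coefficients, with polynomial coefficients -/
theorem universal_poly2 {ι : Type} {F : Subfield ℂ} (c : ι → ℂ) (hc : AlgebraicIndependent F c)
    (U : MvPolynomial σ (MvPolynomial ι F)) (q : κ → MvPolynomial σ (MvPolynomial ι F))
    (L : κ → ℕ) (hU0 : U ≠ 0) (b : Polynomial ℂ) (ev : MvPolynomial ι F →+* ℂ)
    (hev : ev = (aeval c : MvPolynomial ι F →ₐ[F] ℂ).toRingHom)
    (hb : Rep (map ev U) (fun i => map ev (q i)) L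
      fun s => C (b.eval (s : ℂ)) * map ev U ^ s) (hb0 : b ≠ 0) (z : F) :
    ∃ (N : ℕ) (S : Finset (List (σ ⊕ σ) × κ)) (D1 : Polynomial (MvPolynomial ι F))
      (r : List (σ ⊕ σ) × κ → Polynomial (MvPolynomial ι F)),
      (∀ w ∈ S, w.1.length + L w.2 ≤ N) ∧ D1.eval (C z) ≠ 0 ∧
      WEq (map Polynomial.C U) (fun i => map Polynomial.C (q i)) L N S Polynomial.X
        ((Polynomial.X - Polynomial.C (C z)) ^ b.rootMultiplicity (z : ℂ) * D1) r := by
  classical
  have hinj : Function.Injective ev := by rw [hev]; exact hc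
  have hf0 : map ev U ≠ 0 := by
    intro h0
    exact hU0 (map_injective ev hinj (by rw [map_zero]; exact h0))
  obtain ⟨N, S, c1, hS, h1⟩ := words2_poly hf0 b hb
  -- the field of definition
  obtain ⟨K, hK⟩ : ∃ K : IntermediateField F ℂ, K = IntermediateField.adjoin F (Set.range c) :=
    ⟨_, rfl⟩
  have hevK : ∀ x, ev x ∈ K.toSubfield := by
    intro x
    rw [hev]
    change aeval c x ∈ K
    rw [hK, IntermediateField.mem_adjoin_range_iff]
    exact ⟨x, 1, by rw [map_one, div_one]⟩
  obtain ⟨evK, hevKd⟩ : ∃ evK : MvPolynomial ι F →+* K.toSubfield,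
    evK = ev.codRestrict K.toSubfield hevK := ⟨_, rfl⟩
  have hcomp : (algebraMap K.toSubfield ℂ).comp evK = ev := by
    rw [hevKd]
    rfl
  have hevKinj : Function.Injective evK := by
    intro x y hxy
    have h2 := congrArg (algebraMap K.toSubfield ℂ) hxy
    rw [← RingHom.comp_apply, ← RingHom.comp_apply, hcomp] at h2
    exact hinj h2
  have hfK : ∀ f : MvPolynomial σ (MvPolynomial ι F),
      map (algebraMap K.toSubfield ℂ) (map evK f) = map ev f := by
    intro f
    rw [map_map, hcomp]
  have hzK : ((evK (C z) : K.toSubfield) : ℂ) = z := by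
    have h2 : ((evK (C z) : K.toSubfield) : ℂ) = ev (C z) := RingHom.congr_fun hcomp (C z)
    rw [h2, hev]
    change aeval c (C z) = (z : ℂ)
    rw [aeval_C]
    rfl
  have hfrac : ∀ x : K.toSubfield, ∃ n d : MvPolynomial ι F, evK d ≠ 0 ∧ x * evK d = evK n := by
    intro x
    have h2' : ∀ t : ℂ, t ∈ K → t ∈ IntermediateField.adjoin F (Set.range c) := by
      intro t ht
      rwa [hK] at ht
    obtain ⟨n, d, h3⟩ := (IntermediateField.mem_adjoin_range_iff F c _).1 (h2' _ x.2)
    have hvn : ∀ y, ((evK y : K.toSubfield) : ℂ) = aeval c y := by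
      intro y
      have h4 : ((evK y : K.toSubfield) : ℂ) = ev y := RingHom.congr_fun hcomp y
      rw [h4, hev]
      rfl
    by_cases hd : aeval c d = (0 : ℂ)
    · refine ⟨0, 1, by rw [map_one]; exact one_ne_zero, ?_⟩
      rw [map_one, mul_one, map_zero]
      refine Subtype.ext ?_
      rw [h3, hd, div_zero]
      rfl
    · refine ⟨n, d, fun h => hd (by rw [← hvn, h]; rfl), ?_⟩
      refine Subtype.ext ?_
      change (x : ℂ) * ((evK d : K.toSubfield) : ℂ) = ((evK n : K.toSubfield) : ℂ)
      rw [hvn, hvn, h3]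
      exact div_mul_cancel₀ _ hd
  obtain ⟨b', c', hb'z, hc'⟩ := descent_poly2 K.toSubfield (map evK U) (fun i => map evK (q i)) L b
    hb0 (evK (C z)) N S c1 (by
      rw [WEq]
      simp only [hfK]
      exact h1)
  rw [hzK] at hc'
  obtain ⟨D1, r, h2, h3⟩ := clear_den2 evK hevKinj hfrac U q L (C z) N
    (b.rootMultiplicity (z : ℂ)) S b' c' hb'z hc'
  exact ⟨N, S, D1, r, hS, h2, h3⟩

/-- the specialisation of the equation -/
theorem spec_eq2 {A B : Type} [CommRing A] [CommRing B] (h : A →+* B) (s : B)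
    (U : MvPolynomial σ A) (q : κ → MvPolynomial σ A) (L : κ → ℕ) (z : A) (N ν : ℕ)
    (S : Finset (List (σ ⊕ σ) × κ)) (D1 : Polynomial A)
    (r : List (σ ⊕ σ) × κ → Polynomial A)
    (heq : WEq (map Polynomial.C U) (fun i => map Polynomial.C (q i)) L N S Polynomial.X
      ((Polynomial.X - Polynomial.C z) ^ ν * D1) r) :
    WEq (map h U) (fun i => map h (q i)) L N S s ((s - h z) ^ ν * D1.eval₂ h s)
      fun w => (r w).eval₂ h s := by
  have h1 := heq.map (Polynomial.eval₂RingHom h s)
  have h2 : ∀ U : MvPolynomial σ A,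
      map (Polynomial.eval₂RingHom h s) (map Polynomial.C U) = map h U := by
    intro U
    rw [map_map]
    congr 2
    refine RingHom.ext fun r => ?_
    simp
  have h3 : (Polynomial.eval₂RingHom h s) ((Polynomial.X - Polynomial.C z) ^ ν * D1) =
      (s - h z) ^ ν * D1.eval₂ h s := by
    rw [map_mul, map_pow, map_sub]
    simp
  have h4 : (Polynomial.eval₂RingHom h s) Polynomial.X = s := by simp
  simp only [h2, h3, h4] at h1
  exact h1

end Descent

section Spec

variable {k σ ι K : Type} [CommRing k] [Algebra ℂ k] [Fintype ι] [DecidableEq ι] [Fintype K]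
  {F : Subfield ℂ} (G : K → MvPolynomial σ F)

/-- the universal members -/
noncomputable def univO (ι : Type) (o : Option ι) :
    MvPolynomial σ (MvPolynomial (Option ι × K) F) := ∑ μ, C (X (o, μ)) * map C (G μ)

theorem map_univO {A : Type} [CommRing A] (g : MvPolynomial (Option ι × K) F →+* A)
    (o : Option ι) :
    map g (univO G ι o) = ∑ μ, C (g (X (o, μ))) * map (g.comp C) (G μ) := by
  rw [univO, map_sum]
  refine Finset.sum_congr rfl fun μ _ => ?_
  rw [map_mul, map_C, map_map]

theorem univO_ne (hG : ∃ μ, G μ ≠ 0) (o : Option ι) : univO G ι o ≠ 0 := by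
  classical
  obtain ⟨μ, hμ⟩ := hG
  intro h0
  apply hμ
  have h1 := map_univO G (eval fun ν => if ν.2 = μ then (1 : F) else 0) o
  rw [h0, map_zero, Finset.sum_eq_single μ] at h1
  · rw [eval_X, if_pos rfl, map_one, one_mul] at h1
    have h2 : ((eval fun ν : Option ι × K => if ν.2 = μ then (1 : F) else 0) :
        MvPolynomial (Option ι × K) F →+* F).comp C = RingHom.id F := by
      ext r
      simp
    rw [h2, map_id] at h1
    exact h1.symm
  · intro ν _ hν
    rw [eval_X, if_neg hν, map_zero, zero_mul]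
  · intro h; exact absurd (Finset.mem_univ _) h

/-- the specialisation to a pencil -/
noncomputable def specI (c0 e : K → ℂ) (y : ι → K → ℂ) :
    MvPolynomial (Option ι × K) F →+* Polynomial k :=
  eval₂Hom (cst.comp (algebraMap F ℂ)) fun q => match q.1 with
    | none => cst (c0 q.2) + cst (e q.2) * Polynomial.X
    | some j => cst (y j q.2)

theorem specI_none (c0 e : K → ℂ) (y : ι → K → ℂ) :
    map (specI (k := k) c0 e y) (univO G ι none) = VH.pen (member G c0) (member G e) := by
  rw [map_univO, VH.pen, member, member, map_sum, map_sum, Finset.mul_sum, ← Finset.sum_add_distrib]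
  refine Finset.sum_congr rfl fun μ _ => ?_
  have h1 : (specI c0 e y : MvPolynomial (Option ι × K) F →+* Polynomial k) (X (none, μ)) =
      cst (c0 μ) + cst (e μ) * Polynomial.X := by
    rw [specI, coe_eval₂Hom, eval₂_X]
  have h2 : (specI c0 e y : MvPolynomial (Option ι × K) F →+* Polynomial k).comp C =
      cst.comp (algebraMap F ℂ) := by
    ext1 r
    rw [RingHom.comp_apply, specI, coe_eval₂Hom, eval₂_C]
  rw [h1, h2, map_mul, map_mul, map_C, map_C, map_map, map_add, map_mul]
  ring

theorem specI_some (c0 e : K → ℂ) (y : ι → K → ℂ) (j : ι) :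
    map (specI (k := k) c0 e y) (univO G ι (some j)) = map cst (member G (y j)) := by
  rw [map_univO, member, map_sum]
  refine Finset.sum_congr rfl fun μ _ => ?_
  have h1 : (specI c0 e y : MvPolynomial (Option ι × K) F →+* Polynomial k) (X (some j, μ)) =
      cst (y j μ) := by
    rw [specI, coe_eval₂Hom, eval₂_X]
  have h2 : (specI c0 e y : MvPolynomial (Option ι × K) F →+* Polynomial k).comp C =
      cst.comp (algebraMap F ℂ) := by
    ext1 r
    rw [RingHom.comp_apply, specI, coe_eval₂Hom, eval₂_C]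
  rw [h1, h2, map_mul, map_C, map_map]

/-- the specialisation to a pencil, over `ℂ` -/
noncomputable def specC (c0 e : K → ℂ) (y : ι → K → ℂ) :
    MvPolynomial (Option ι × K) F →+* Polynomial ℂ :=
  eval₂Hom (Polynomial.C.comp (algebraMap F ℂ)) fun q => match q.1 with
    | none => Polynomial.C (c0 q.2) + Polynomial.C (e q.2) * Polynomial.X
    | some j => Polynomial.C (y j q.2)

theorem specC_eval (c0 e : K → ℂ) (y : ι → K → ℂ) (t : ℂ) (Q : MvPolynomial (Option ι × K) F) :
    (specC c0 e y Q).eval t = aeval (fun q : Option ι × K => match q.1 with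
      | none => c0 q.2 + e q.2 * t
      | some j => y j q.2) Q := by
  have h : (Polynomial.evalRingHom t).comp (specC c0 e y) =
      (aeval (fun q : Option ι × K => match q.1 with
      | none => c0 q.2 + e q.2 * t
      | some j => y j q.2) : MvPolynomial (Option ι × K) F →ₐ[F] ℂ).toRingHom := by
    refine ringHom_ext (fun r => ?_) fun μ => ?_
    · rw [RingHom.comp_apply, specC, coe_eval₂Hom, eval₂_C]
      change _ = aeval _ (C r)
      rw [aeval_C]
      simp
    · rw [RingHom.comp_apply, specC, coe_eval₂Hom, eval₂_X]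
      change _ = aeval _ (X μ)
      rw [aeval_X]
      rcases μ with ⟨o, μ⟩
      cases o with
      | none => simp
      | some j => simp
  exact RingHom.congr_fun h Q

theorem specC_zero (c0 v : K → ℂ) (hv : ∃ μ, v μ ≠ 0) (hv0 : ∑ μ, c0 μ * v μ = 0)
    (D : MvPolynomial (Option ι × K) F)
    (h : ∀ (y : ι → K → ℂ) (e : K → ℂ), ∑ μ, e μ * v μ = 1 → specC c0 e y D = 0) : D = 0 := by
  have h2 : ∀ y : Option ι × K → ℂ, ∑ μ, y (none, μ) * v μ ≠ 0 → aeval y D = (0 : ℂ) := by
    intro y hy
    obtain ⟨t, ht⟩ : ∃ t, t = ∑ μ, y (none, μ) * v μ := ⟨_, rfl⟩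
    rw [← ht] at hy
    obtain ⟨e, he⟩ : ∃ e : K → ℂ, e = fun μ => (y (none, μ) - c0 μ) / t := ⟨_, rfl⟩
    have h3 : ∑ μ, e μ * v μ = 1 := by
      have h4 : ∑ μ, e μ * v μ = (∑ μ, y (none, μ) * v μ - ∑ μ, c0 μ * v μ) / t := by
        rw [← Finset.sum_sub_distrib, Finset.sum_div]
        refine Finset.sum_congr rfl fun μ _ => ?_
        rw [he]
        ring
      rw [h4, hv0, sub_zero, ← ht, div_self hy]
    have h7 := congrArg (Polynomial.eval t) (h (fun j μ => y (some j, μ)) e h3)
    rw [specC_eval, Polynomial.eval_zero] at h7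
    rw [← h7]
    congr 2
    funext q
    rcases q with ⟨o, μ⟩
    cases o with
    | none =>
      simp only
      rw [he]
      field_simp
      ring
    | some j => rfl
  have h3 : map (algebraMap F ℂ) D * (∑ μ, C (v μ) * X (none, μ)) = 0 := by
    refine MvPolynomial.funext fun y => ?_
    rw [map_mul, eval_map, map_zero]
    by_cases hy : ∑ μ, y (none, μ) * v μ = 0
    · have h4 : eval y (∑ μ, C (v μ) * X (none, μ)) = 0 := by
        rw [map_sum, ← hy]
        refine Finset.sum_congr rfl fun μ _ => ?_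
        rw [map_mul, eval_C, eval_X, mul_comm]
      rw [h4, mul_zero]
    · have h4 := h2 y hy
      rw [aeval_def] at h4
      rw [h4, zero_mul]
  rcases mul_eq_zero.1 h3 with h4 | h4
  · refine map_injective (algebraMap F ℂ) (algebraMap F ℂ).injective ?_
    rw [h4, map_zero]
  · obtain ⟨μ, hμ⟩ := hv
    classical
    have h5 := congrArg (eval fun ν : Option ι × K => if ν.2 = μ then (1 : ℂ) else 0) h4
    rw [map_sum, map_zero, Finset.sum_eq_single μ] at h5
    · rw [map_mul, eval_C, eval_X, if_pos rfl, mul_one] at h5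
      exact absurd h5 hμ
    · intro ν _ hν
      rw [map_mul, eval_C, eval_X, if_neg hν, mul_zero]
    · intro h; exact absurd (Finset.mem_univ _) h

/-- the types of the words: products of powers of the other generators -/
noncomputable def qfam {A : Type} [CommRing A] (f : ι → MvPolynomial σ A) (β : ι →₀ ℕ) :
    MvPolynomial σ A := ∏ j, f j ^ β j

theorem map_qfam {A B : Type} [CommRing A] [CommRing B] (g : A →+* B) (f : ι → MvPolynomial σ A)
    (β : ι →₀ ℕ) : map g (qfam f β) = qfam (fun j => map g (f j)) β := by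
  rw [qfam, map_prod]
  simp only [map_pow]
  rfl

/-- **The reduction.** -/
theorem mult_main2 (c : Option ι × K → ℂ) (hc : AlgebraicIndependent F c) (hG : ∃ μ, G μ ≠ 0)
    (b : Polynomial ℂ)
    (hb : Pool.Agent.W574.SM.IsFunctionalEq (fun o => member G fun μ => c (o, μ)) b)
    (z : F) (c0 v : K → ℂ)
    (hv : ∃ μ, v μ ≠ 0) (hv0 : ∑ μ, c0 μ * v μ = 0) (ε : k) (π : k →+* ℂ)
    (hπ : ∀ r, π (algebraMap ℂ k r) = r) (hπε : π ε = 0) (m c' : ℕ)
    (hK : ∀ ν < m, ∀ x : k, ε ^ (ν + c') * x = 0 → π x = 0)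
    (heng : ∀ (y : ι → K → ℂ) (e : K → ℂ), ∑ μ, e μ * v μ = 1 →
      ∀ (N : ℕ) (S : Finset (List (σ ⊕ σ) × (ι →₀ ℕ))),
      (∀ w ∈ S, w.1.length + ∑ j, w.2 j ≤ N) →
      ∀ (r : List (σ ⊕ σ) × (ι →₀ ℕ) → Polynomial k) (Q : Polynomial k),
      WEq (VH.pen (member G c0) (member G e)) (qfam fun j => map cst (member G (y j)))
        (fun β => ∑ j, β j) N S (Polynomial.C (algebraMap ℂ k (z : ℂ) + ε)) Q r →
            Polynomial.C (ε ^ c') * Q = 0) :
    (Polynomial.X - Polynomial.C (z : ℂ)) ^ m ∣ b := by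
  by_cases hb0 : b = 0
  · rw [hb0]; exact dvd_zero _
  rw [← Polynomial.le_rootMultiplicity_iff hb0]
  by_contra hlt
  rw [not_le] at hlt
  obtain ⟨ev, hev⟩ : ∃ ev : MvPolynomial (Option ι × K) F →+* ℂ,
    ev = (aeval c : MvPolynomial (Option ι × K) F →ₐ[F] ℂ).toRingHom := ⟨_, rfl⟩
  have hmem : ∀ o, map ev (univO G ι o) = member G fun μ => c (o, μ) := by
    intro o
    rw [map_univO, member]
    refine Finset.sum_congr rfl fun μ _ => ?_
    have h1 : ev (X (o, μ)) = c (o, μ) := by
      rw [hev]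
      change aeval c (X (o, μ)) = c (o, μ)
      rw [aeval_X]
    have h2 : ev.comp C = algebraMap F ℂ := by
      ext1 r
      rw [hev]
      change aeval c (C r) = algebraMap F ℂ r
      rw [aeval_C]
    rw [h1, h2]
  have hrep := rep_ideal _ b hb
  obtain ⟨N, S, D1, r, hS, hD1, heq⟩ := universal_poly2 c hc (univO G ι none)
    (qfam fun j => univO G ι (some j)) (fun β => ∑ j, β j) (univO_ne G hG none) b ev hev (by
      simp only [map_qfam, hmem]
      exact hrep) hb0 z
  refine hD1 (specC_zero c0 v hv hv0 _ fun y e he => ?_)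
  have h1 := spec_eq2 (specI (k := k) c0 e y) (Polynomial.C (algebraMap ℂ k (z : ℂ) + ε))
    (univO G ι none) (qfam fun j => univO G ι (some j)) (fun β => ∑ j, β j) (C z) N _ S D1 r heq
  simp only [map_qfam, specI_none, specI_some] at h1
  have h2 := heng y e he N S hS _ _ h1
  have hzc : (specI (k := k) c0 e y) (C z) = Polynomial.C (algebraMap ℂ k (z : ℂ)) := by
    rw [specI, coe_eval₂Hom, eval₂_C]
    rfl
  have h3 : (Polynomial.C (algebraMap ℂ k (z : ℂ) + ε) - specI c0 e y (C z)) =
      Polynomial.C ε := by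
    rw [hzc, ← Polynomial.C_sub, add_sub_cancel_left]
  rw [h3, ← Polynomial.C_pow, ← mul_assoc, ← Polynomial.C_mul, mul_comm (ε ^ c'), ← pow_add] at h2
  have h4 : (Polynomial.eval₂ (specI c0 e y) (Polynomial.C (algebraMap ℂ k (z : ℂ) + ε)) D1).map π
      = 0 := by
    ext1 n
    rw [Polynomial.coeff_map, Polynomial.coeff_zero]
    refine hK _ hlt _ ?_
    have := congrArg (fun p => Polynomial.coeff p n) h2
    simp only [Polynomial.coeff_C_mul, Polynomial.coeff_zero] at this
    exact this
  have h5 : (Polynomial.mapRingHom π).comp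
      (Polynomial.eval₂RingHom (specI (k := k) c0 e y)
        (Polynomial.C (algebraMap ℂ k (z : ℂ) + ε))) =
      (specC c0 e y).comp (Polynomial.evalRingHom (C z)) := by
    refine Polynomial.ringHom_ext' ?_ ?_
    · refine MvPolynomial.ringHom_ext (fun r => ?_) fun μ => ?_
      · simp [specI, specC, cst, hπ]
      · rcases μ with ⟨o, μ⟩
        cases o with
        | none => simp [specI, specC, cst, hπ]
        | some j => simp [specI, specC, cst, hπ]
    · have e1 : (specC c0 e y) (C z) = Polynomial.C (z : ℂ) := by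
        rw [specC, coe_eval₂Hom, eval₂_C]
        rfl
      simp only [RingHom.coe_comp, Function.comp_apply, Polynomial.coe_eval₂RingHom,
        Polynomial.eval₂_X, Polynomial.coe_mapRingHom, Polynomial.map_C,
        Polynomial.coe_evalRingHom, Polynomial.eval_X]
      rw [e1, map_add, hπ, hπε, add_zero]
  have h6 := RingHom.congr_fun h5 D1
  change (Polynomial.eval₂ (specI c0 e y) (Polynomial.C (algebraMap ℂ k (z : ℂ) + ε)) D1).map π =
    specC c0 e y (D1.eval (C z)) at h6
  rw [← h6, h4]

end Spec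

end Pool.Agent.H63.VL
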