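import Pool.Agent.H63.VL.Core2
import Pool.Agent.H63.VK.Lin

set_option autoImplicit false
set_option linter.unusedSectionVars false

/-! # The roots which come from a chart, for ideals -/

namespace Pool.Agent.H63.VL

open MvPolynomial Pool.Agent.H63.VG Pool.Agent.H63.VI Pool.Agent.H63.VK Pool.Agent.H628R4.TP

variable {K τ ι : Type} [Fintype K] [Fintype τ] [DecidableEq τ] [Fintype ι] [DecidableEq ι]

theorem tan_const {e d : τ → ℕ} {R : Finset τ} {bt : τ → ℂ} {h : MvPowerSeries τ ℂ}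
    (H : Tan e d R bt h) (hd : ∀ t, d t ≠ 0) :
    MvPowerSeries.constantCoeff h = 0 := by
  by_contra h0
  rw [← MvPowerSeries.coeff_zero_eq_constantCoeff_apply] at h0
  rcases H.wt 0 h0 with h1 | ⟨t, -, h1⟩
  · have h2 : VG.wt e (0 : τ →₀ ℕ) = 0 := by
      rw [VG.wt]
      exact Finset.sum_eq_zero fun t _ => by rw [Finsupp.zero_apply, mul_zero]
    omega
  · have h2 := DFunLike.congr_fun h1 t
    rw [Finsupp.zero_apply, Finsupp.single_eq_same] at h2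
    exact hd t h2.symm

theorem epsK_one (M : ℕ) (h : M = 1) : VH.epsK M = 0 := by
  subst h
  have := VH.epsK_pow 1
  rwa [pow_one] at this

section Point

variable {F : Subfield ℂ} {G : K → MvPolynomial τ F} {κ A : τ → ℕ}
  (Λ : LS (fun μ => map (algebraMap F ℂ) (G μ)) κ A)
  (c : Option ι × K → ℂ) (hind : AlgebraicIndependent F c) (b : Polynomial ℂ)
  (hb : Pool.Agent.W574.SM.IsFunctionalEq (fun o => member G fun μ => c (o, μ)) b)
  (hv : ∃ μ, MvPowerSeries.constantCoeff (Λ.h μ) ≠ 0) (c0 : K → ℂ)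
  (e d : τ → ℕ) (he : ∀ t, e t ≠ 0) (hd : ∀ t, d t ≠ 0) (hed : ∀ t, e t * d t = 6) (bt : τ → ℂ)

include hind hb hv hd in
theorem ls2_core (H : Tan e d Finset.univ bt (Λ.mem c0))
    (z : F) (M : ℕ) (hM : M ≠ 0) (c' mm : ℕ) (hmc : mm + c' ≤ M)
    (hcase : ∀ (f0 f1 : MvPolynomial τ ℂ) (h0 h1 : MvPowerSeries τ ℂ)
      (fj : ι → MvPolynomial τ ℂ) (hj : ι → MvPowerSeries τ ℂ),
      aeval Λ.x f0 = (∏ t, MvPowerSeries.X t ^ A t) * h0 →
      aeval Λ.x f1 = (∏ t, MvPowerSeries.X t ^ A t) * h1 →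
      (∀ j, aeval Λ.x (fj j) = (∏ t, MvPowerSeries.X t ^ A t) * hj j) →
      MvPowerSeries.constantCoeff h1 = 1 →
      (∀ t, MvPowerSeries.coeff (Finsupp.single t (d t)) h0 = bt t) →
      (∀ μ, MvPowerSeries.coeff μ h0 ≠ 0 →
        6 < VH.wt e μ ∨ ∃ t, μ = Finsupp.single t (d t)) →
      ∀ (N : ℕ) (S : Finset (List (τ ⊕ τ) × (ι →₀ ℕ))),
      (∀ w ∈ S, w.1.length + ∑ j, w.2 j ≤ N) →
      ∀ (r : List (τ ⊕ τ) × (ι →₀ ℕ) → Polynomial (VH.KK M)) (Q : Polynomial (VH.KK M)),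
      WEq (VH.pen f0 f1) (qfam fun j => map VH.cst (fj j)) (fun β => ∑ j, β j) N S
        (Polynomial.C (algebraMap ℂ (VH.KK M) (z : ℂ) + VH.epsK M)) Q r →
      Polynomial.C ((VH.epsK M) ^ c') * Q = 0) :
    (Polynomial.X - Polynomial.C (z : ℂ)) ^ mm ∣ b := by
  refine mult_main2 G c hind (ls_ne Λ hv) b hb z
    c0 (fun μ => MvPowerSeries.constantCoeff (Λ.h μ)) hv ?_ (VH.epsK M) (VH.piK M hM)
    (VH.piK_algebraMap M hM) (VH.piK_eps M hM) mm c' (fun ν hν x hx => ?_) ?_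
  · rw [← Λ.const_mem, tan_const H hd]
  · exact VH.piK_zero M hM _ (by omega) x hx
  · intro y f hf N S hS r Q heq
    have hf0 := Λ.aeval_mem c0
    have hf1 := Λ.aeval_mem f
    refine hcase _ _ _ _ _ (fun j => Λ.mem (y j)) hf0 hf1 (fun j => Λ.aeval_mem (y j)) ?_
      (fun t => H.co t (Finset.mem_univ t)) (fun μ hμ => ?_) N S hS r Q heq
    · rw [Λ.const_mem]
      exact hf
    · rcases H.wt μ hμ with h | ⟨t, -, h⟩
      · exact Or.inl h
      · exact Or.inr ⟨t, h⟩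

variable {T : Finset τ} {α : ℚ} (hT : VI.Rat κ A T α)

theorem rat_hA (hT : VI.Rat κ A T α) (hd : ∀ t, d t ≠ 0) (hd2 : ∀ t, t ∉ T → 2 ≤ d t)
    (t : τ) (n : ℕ) (hn : 1 ≤ n) :
    ((κ t + 1 : ℕ) : ℂ) + A t * (-(α : ℂ)) ≠ d t * n := by
  by_cases ht : t ∈ T
  · rw [hT.zero t ht]
    exact (mul_ne_zero (Nat.cast_ne_zero.2 (hd t)) (Nat.cast_ne_zero.2 (by omega))).symm
  · obtain ⟨h1, h2⟩ := hT.notMem t ht
    rw [h1, h2, Nat.cast_zero, zero_mul, add_zero]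
    intro h3
    have h4 : 0 + 1 = d t * n := by exact_mod_cast h3
    have := hd2 t ht
    nlinarith

include hind hb hv he hd hed hT in
/-- **the order of the root, first case** -/
theorem ls2_A (hd2 : ∀ t, t ∉ T → 2 ≤ d t) (hbt : ∀ t, bt t ≠ 0 ∨ (bt t = 0 ∧ T = {t}))
    (H : Tan e d Finset.univ bt (Λ.mem c0))
    (hδn : ∀ n : ℕ, 1 ≤ n → α - ∑ t ∈ Finset.univ \ T, (1 : ℚ) / d t ≠ n) :
    (Polynomial.X - Polynomial.C (-(α : ℂ))) ^ T.card ∣ b := by
  rcases Nat.eq_zero_or_pos T.card with h0 | h0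
  · rw [h0, pow_zero]; exact one_dvd _
  have key := ls2_core Λ c hind b hb hv c0 e d hd bt H ((-α : ℚ) : F) T.card h0.ne' 0
    T.card (by omega) ?_
  · rwa [coe_neg] at key
  intro f0 f1 h0' h1 fj hj hf0 hf1 hfj hh1 hb' hh N S hS r Q heq
  rw [pow_zero, map_one, one_mul]
  rw [coe_neg] at heq
  refine case_A2 e he 6 (by norm_num) d hd hed bt Λ.x κ A Λ.U Λ.hU
    Λ.jac f0 f1 h0' h1 hf0 hf1 hh1 hb' hh fj hj hfj (VH.epsK T.card)
    (fun r x hr => VH.epsK_unit T.card r x hr) (-(α : ℂ)) (fun t => ?_) T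
    (fun t ht => (hT.mem t ht).1) (fun t ht => hT.zero t ht)
    (fun t n hn => rat_hA d hT hd hd2 t n hn) (fun n => ?_)
    (fun n hn => hT.hND d hδn n hn) (VH.epsK_pow _) N S hS r Q heq
  · rcases hbt t with h | ⟨h, hTt⟩
    · exact Or.inl h
    · refine Or.inr ⟨h, ?_⟩
      have h1 : VH.epsK T.card = 0 := epsK_one _ (by rw [hTt, Finset.card_singleton])
      have h2 := congrArg (algebraMap ℂ (VH.KK T.card)) (hT.zero t (hTt ▸ Finset.mem_singleton_self t))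
      rw [map_add, map_mul, map_natCast, map_natCast, map_zero] at h2
      rw [h1, add_zero]
      exact h2
  · rw [neg_neg]
    have h2 := hT.pos
    have h3 : (α + n : ℚ) ≠ 0 := by positivity
    exact_mod_cast h3

include hind hb hv he hd hed hT in
/-- **the order of the root, fourth case** -/
theorem ls2_D (hbt : ∀ t, bt t ≠ 0) (H : Tan e d Finset.univ bt (Λ.mem c0))
    (hTu : T = Finset.univ) (n : ℕ) (hn : 1 ≤ n) (hα : α = n) :
    (Polynomial.X - Polynomial.C (-(α : ℂ))) ^ (T.card - 1) ∣ b := by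
  rcases Nat.eq_zero_or_pos (T.card - 1) with h0 | h0
  · rw [h0, pow_zero]; exact one_dvd _
  have key := ls2_core Λ c hind b hb hv c0 e d hd bt H ((-α : ℚ) : F) T.card (by omega) 1
    (T.card - 1) (by omega) ?_
  · rwa [coe_neg] at key
  intro f0 f1 h0' h1 fj hj hf0 hf1 hfj hh1 hb' hh N S hS r Q heq
  rw [pow_one]
  rw [coe_neg] at heq
  exact case_D2 e he 6 (by norm_num) d hd hed bt Λ.x κ A Λ.U Λ.hU
    Λ.jac f0 f1 h0' h1 hf0 hf1 hh1 hb' hh fj hj hfj (VH.epsK T.card)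
    (fun r x hr => VH.epsK_unit T.card r x hr) (-(α : ℂ)) hbt T
    (fun t ht => (hT.mem t ht).1) (fun t ht => hT.zero t ht) hTu n hn (by rw [hα]; simp)
    (VH.epsK_pow _) N S hS r Q heq

end Point

end Pool.Agent.H63.VL
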