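import Pool.Agent.H63.VL.Trans
import Pool.Agent.H63.VI.Chart

set_option autoImplicit false
set_option linter.unusedSectionVars false

/-! # The roots which come from a point, for ideals generated by forms -/

namespace Pool.Agent.H63.VL

open MvPolynomial Pool.Agent.H63.VG Pool.Agent.H63.VI Pool.Agent.H63.VK Pool.Agent.H628R4.TP
open Pool.Agent.W574.SM

variable {ρ σ ι : Type} [Fintype ρ] [DecidableEq ρ] [Fintype σ] [DecidableEq σ]
  [Fintype ι] [DecidableEq ι]
variable {P : MvPolynomial σ ℂ} {g : ρ → MvPolynomial σ ℂ} {κ a' a : σ → ℕ}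

/-- the linear system -/
noncomputable def fsys (P : MvPolynomial σ ℂ) (g : ρ → MvPolynomial σ ℂ) (m : ℕ)
    (ν : Ex ρ m) : MvPolynomial σ ℂ := P * ∏ j, g j ^ ν.1 j

theorem fsys_form (m : ℕ) (H : MvPolynomial ρ ℂ) (hH : H.IsHomogeneous m) :
    ∑ ν : Ex ρ m, C (H.coeff ν.1) * fsys P g m ν = P * aeval g H := by
  rw [form_expand m H hH, Finset.mul_sum]
  refine Finset.sum_congr rfl fun ν _ => ?_
  rw [algebraMap_eq, fsys]
  ring

/-- the chart -/
noncomputable def locLS (Λ : Loc P g κ a' a) (m : ℕ) :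
    LS (fsys P g m) κ (fun t => a' t + m * a t) where
  x := Λ.x
  U := Λ.U
  h ν := Λ.V * ∏ j, Λ.w j ^ ν.1 j
  jac := Λ.jac
  hU := Λ.hU
  hG ν := by
    have h := Λ.form m (monomial ν.1 1) (isHomogeneous_monomial _ ν.2)
    rw [aeval_monomial, aeval_monomial, map_one, map_one, one_mul, one_mul,
      Finsupp.prod_fintype _ _ fun _ => pow_zero _,
      Finsupp.prod_fintype _ _ fun _ => pow_zero _] at h
    exact h

theorem locLS_mem (Λ : Loc P g κ a' a) (m : ℕ) (H : MvPolynomial ρ ℂ) (hH : H.IsHomogeneous m) :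
    (locLS Λ m).mem (fun ν => H.coeff ν.1) = Λ.V * aeval Λ.w H := by
  rw [form_expand m H hH, Finset.mul_sum, LS.mem]
  refine Finset.sum_congr rfl fun ν _ => ?_
  rw [MvPowerSeries.algebraMap_apply, Algebra.algebraMap_self, RingHom.id_apply]
  change MvPowerSeries.C _ * (Λ.V * ∏ j, Λ.w j ^ ν.1 j) = _
  ring

theorem locLS_const (Λ : Loc P g κ a' a) (m : ℕ) (ν : Ex ρ m) :
    MvPowerSeries.constantCoeff ((locLS Λ m).h ν) = Λ.v m ν := by
  change MvPowerSeries.constantCoeff (Λ.V * ∏ j, Λ.w j ^ ν.1 j) = _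
  rw [map_mul, map_prod, Loc.v]
  simp only [map_pow]

theorem locLS_ne (Λ : Loc P g κ a' a) (m : ℕ) (L : ρ → ℂ)
    (hL : ∑ j, L j * MvPowerSeries.constantCoeff (Λ.w j) = 1) :
    ∃ ν, MvPowerSeries.constantCoeff ((locLS Λ m).h ν) ≠ 0 := by
  obtain ⟨ν, hν⟩ := Λ.v_ne m L hL
  exact ⟨ν, by rw [locLS_const]; exact hν⟩

open Classical in
/-- The order of the root `-α` which is proved if `c` divisors with the ratio `α` have a common
point on a variety of dimension `n`. -/
noncomputable def exi (n c : ℕ) (α : ℚ) : ℕ :=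
  if c = n ∧ ∃ q : ℕ, α = q then c - 1 else c

variable (Λ : Loc P g κ a' a) (m : ℕ) (hm : 3 ≤ m)

include hm in
/-- **Immersions.** -/
theorem pt_strong (L : Option σ → ρ → ℂ)
    (hL0 : ∀ t, ∑ j, L t j * MvPowerSeries.constantCoeff (Λ.w j) = if t = none then 1 else 0)
    (hL1 : ∀ t s, ∑ j, L (some t) j * MvPowerSeries.coeff (Finsupp.single s 1) (Λ.w j) =
      if s = t then 1 else 0) (T : Finset σ) (α : ℚ)
    (hT : VI.Rat κ (fun t => a' t + m * a t) T α) :
    ∃ Γ : MvPolynomial (Option ι × Ex ρ m) ℂ, Γ ≠ 0 ∧ ∀ c : Option ι × Ex ρ m → ℂ,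
      eval c Γ ≠ 0 → ∀ b : Polynomial ℂ,
        IsFunctionalEq (fun o => ∑ ν, C (c (o, ν)) * fsys P g m ν) b →
          (Polynomial.X - Polynomial.C (-(α : ℂ))) ^ exi (Fintype.card σ) T.card α ∣ b := by
  have hv := locLS_ne Λ m (L none) (by rw [hL0, if_pos rfl])
  have tan : ∀ δ : σ → ℕ, (∀ t, δ t = 2 ∨ δ t = 3) →
      Tan (fun t => 6 / δ t) δ Finset.univ (fun _ => MvPowerSeries.constantCoeff Λ.V)
        ((locLS Λ m).mem fun ν => (tform Finset.univ δ m L).coeff ν.1) := by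
    intro δ hδ
    have hδ6 : ∀ t, 6 / δ t * δ t = 6 := fun t => by
      rcases hδ t with h | h <;> rw [h]
    obtain ⟨hT1, hT2, -⟩ := tangent_data (fun t => 6 / δ t)
      (fun t => by rcases hδ t with h | h <;> rw [h] <;> norm_num) Finset.univ δ
      (fun t _ => hδ t) (fun t _ => hδ6 t) (fun t ht => absurd (Finset.mem_univ t) ht) m L Λ.w Λ.V
      (fun t _ => by rw [hL0, if_neg (Option.some_ne_none t)])
      (by rw [hL0, if_pos rfl]) (fun t _ s _ => hL1 t s)
    have hGh : (tform Finset.univ δ m L).IsHomogeneous m :=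
      tform_homog _ _ _ _ fun t _ => by rcases hδ t with h | h <;> omega
    rw [locLS_mem Λ m _ hGh]
    exact ⟨hT1, hT2⟩
  have hTu' : T.card = Fintype.card σ ↔ T = Finset.univ := Finset.card_eq_iff_eq_univ T
  have main : ∀ δ : σ → ℕ, (∀ t, δ t = 2 ∨ δ t = 3) →
      (∀ n : ℕ, 1 ≤ n → α - ∑ t ∈ Finset.univ \ T, (1 : ℚ) / δ t ≠ n) →
      ∃ Γ : MvPolynomial (Option ι × Ex ρ m) ℂ, Γ ≠ 0 ∧ ∀ c : Option ι × Ex ρ m → ℂ,
      eval c Γ ≠ 0 → ∀ b : Polynomial ℂ,
        IsFunctionalEq (fun o => ∑ ν, C (c (o, ν)) * fsys P g m ν) b →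
          (Polynomial.X - Polynomial.C (-(α : ℂ))) ^ T.card ∣ b := by
    intro δ hδ hδn
    exact gen2_A (locLS Λ m) hv _ (fun t => 6 / δ t) δ (δ6 δ hδ) (δ0 δ hδ) (δ6' δ hδ) _ hT
      (fun t _ => by rcases hδ t with h | h <;> omega) (fun t => Or.inl Λ.hV) (tan δ hδ) hδn
  by_cases hTu : T = Finset.univ
  · by_cases hq : ∃ q : ℕ, α = q
    · have h1 : exi (Fintype.card σ) T.card α = T.card - 1 := by
        rw [exi, if_pos ⟨hTu'.2 hTu, hq⟩]
      rw [h1]
      obtain ⟨q, hq⟩ := hq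
      have hq1 : 1 ≤ q := by
        have := hT.pos
        rw [hq] at this
        exact_mod_cast this
      have h2 : ∀ t : σ, (2 = 2 ∨ 2 = 3) := fun _ => Or.inl rfl
      exact gen2_D (locLS Λ m) hv _ (fun t => 6 / 2) (fun _ => 2) (fun _ => by norm_num)
        (fun _ => by norm_num) (fun _ => by norm_num) _ hT (fun _ => Λ.hV)
        (tan (fun _ => 2) fun _ => Or.inl rfl) hTu q hq1 hq
    · have h1 : exi (Fintype.card σ) T.card α = T.card := by
        rw [exi, if_neg fun h => hq h.2]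
      rw [h1]
      refine main (fun _ => 2) (fun _ => Or.inl rfl) fun n _ hn => hq ⟨n, ?_⟩
      rw [hTu, Finset.sdiff_self, Finset.sum_empty, sub_zero] at hn
      exact hn
  · have h1 : exi (Fintype.card σ) T.card α = T.card := by
      rw [exi, if_neg fun h => hTu (hTu'.1 h.1)]
    rw [h1]
    obtain ⟨δ, hδ, hδn⟩ := exists_delta T hTu α
    exact main δ hδ hδn

include hm in
/-- **Immersions along the divisor.** -/
theorem pt_weak (L : Option σ → ρ → ℂ) (o : σ)
    (hL0 : ∀ t, t ≠ some o →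
      ∑ j, L t j * MvPowerSeries.constantCoeff (Λ.w j) = if t = none then 1 else 0)
    (hL1 : ∀ t s, t ≠ o → s ≠ o → ∑ j, L (some t) j *
      MvPowerSeries.coeff (Finsupp.single s 1) (Λ.w j) = if s = t then 1 else 0) (α : ℚ)
    (hT : VI.Rat κ (fun t => a' t + m * a t) {o} α) (hTu : ({o} : Finset σ) ≠ Finset.univ) :
    ∃ Γ : MvPolynomial (Option ι × Ex ρ m) ℂ, Γ ≠ 0 ∧ ∀ c : Option ι × Ex ρ m → ℂ,
      eval c Γ ≠ 0 → ∀ b : Polynomial ℂ,
        IsFunctionalEq (fun o => ∑ ν, C (c (o, ν)) * fsys P g m ν) b →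
          (Polynomial.X - Polynomial.C (-(α : ℂ))) ^ 1 ∣ b := by
  have hv := locLS_ne Λ m (L none) (by rw [hL0 _ (Option.some_ne_none o).symm, if_pos rfl])
  obtain ⟨δ, hδ, hδn⟩ := exists_delta {o} hTu α
  have hδ6 : ∀ t, 6 / δ t * δ t = 6 := fun t => by
    rcases hδ t with h | h <;> rw [h]
  obtain ⟨e, he⟩ : ∃ e : σ → ℕ, e = fun t => if t = o then 6 else 6 / δ t := ⟨_, rfl⟩
  have heo : e o = 6 := by rw [he]; simp
  have het : ∀ t, t ≠ o → e t = 6 / δ t := fun t ht => by rw [he]; simp [ht]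
  obtain ⟨d, hd⟩ : ∃ d : σ → ℕ, d = fun t => if t = o then 1 else δ t := ⟨_, rfl⟩
  have hdo : d o = 1 := by rw [hd]; simp
  have hdt : ∀ t, t ≠ o → d t = δ t := fun t ht => by rw [hd]; simp [ht]
  obtain ⟨hT1, hT2, -⟩ := tangent_data e
    (fun t => by
      by_cases h : t = o
      · rw [h, heo]; norm_num
      · rw [het t h]
        rcases hδ t with h | h <;> rw [h]; norm_num) (Finset.univ.erase o) δ
    (fun t _ => hδ t) (fun t ht => by rw [het t (Finset.ne_of_mem_erase ht)]; exact hδ6 t)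
    (fun t ht => by
      have : t = o := by
        by_contra h
        exact ht (Finset.mem_erase.2 ⟨h, Finset.mem_univ _⟩)
      rw [this, heo]; norm_num) m L Λ.w Λ.V
    (fun t ht => by
      rw [hL0 _ (fun h => Finset.ne_of_mem_erase ht (Option.some_injective _ h)),
        if_neg (Option.some_ne_none t)])
    (by rw [hL0 _ (Option.some_ne_none o).symm, if_pos rfl])
    (fun t ht s hs => hL1 t s (Finset.ne_of_mem_erase ht) (Finset.ne_of_mem_erase hs))
  have hGh : (tform (Finset.univ.erase o) δ m L).IsHomogeneous m :=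
    tform_homog _ _ _ _ fun t _ => by rcases hδ t with h | h <;> omega
  have hne : ∀ t, t ≠ o → (Finsupp.single o 1 : σ →₀ ℕ) ≠ Finsupp.single t (δ t) := by
    intro t ht h
    have h1 := DFunLike.congr_fun h o
    rw [Finsupp.single_eq_same, Finsupp.single_eq_of_ne (Ne.symm ht)] at h1
    exact one_ne_zero h1
  have H : Tan e d Finset.univ (fun t => if t = o then 0 else MvPowerSeries.constantCoeff Λ.V)
      ((locLS Λ m).mem fun ν => (tform (Finset.univ.erase o) δ m L).coeff ν.1) := by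
    rw [locLS_mem Λ m _ hGh]
    refine ⟨fun t _ => ?_, fun μ hμ => ?_⟩
    · by_cases h : t = o
      · subst h
        rw [if_pos rfl, hdo]
        by_contra h0
        rcases hT2 _ h0 with h1 | ⟨s, hs, h1⟩
        · have h2 : VG.wt e (Finsupp.single t 1) = 6 := by
            rw [VG.wt, Finset.sum_eq_single t]
            · rw [Finsupp.single_eq_same, heo]
            · intro s _ hs
              rw [Finsupp.single_eq_of_ne hs, mul_zero]
            · intro h; exact absurd (Finset.mem_univ _) h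
          omega
        · exact hne s (Finset.ne_of_mem_erase hs) h1
      · rw [if_neg h, hdt t h]
        exact hT1 t (Finset.mem_erase.2 ⟨h, Finset.mem_univ _⟩)
    · rcases hT2 μ hμ with h | ⟨t, ht, h⟩
      · exact Or.inl h
      · exact Or.inr ⟨t, Finset.mem_univ _, by rw [hdt t (Finset.ne_of_mem_erase ht)]; exact h⟩
  have h1 := gen2_A (ι := ι) (locLS Λ m) hv _ e d (fun t => ?_) (fun t => ?_) (fun t => ?_) _ hT
    (fun t ht => ?_) (fun t => ?_) H (fun n hn => ?_)
  · rwa [Finset.card_singleton] at h1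
  · by_cases h : t = o
    · rw [h, heo]; norm_num
    · rw [het t h]; exact δ6 δ hδ t
  · by_cases h : t = o
    · rw [h, hdo]; norm_num
    · rw [hdt t h]; exact δ0 δ hδ t
  · by_cases h : t = o
    · rw [h, heo, hdo]
    · rw [het t h, hdt t h]; exact hδ6 t
  · rw [hdt t fun h => ht (Finset.mem_singleton.2 h)]
    rcases hδ t with h | h <;> omega
  · by_cases h : t = o
    · exact Or.inr ⟨if_pos h, by rw [h]⟩
    · left
      rw [if_neg h]
      exact Λ.hV
  · have h2 : ∑ t ∈ Finset.univ \ {o}, (1 : ℚ) / d t = ∑ t ∈ Finset.univ \ {o}, (1 : ℚ) / δ t := by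
      refine Finset.sum_congr rfl fun t ht => ?_
      rw [hdt t fun h => (Finset.mem_sdiff.1 ht).2 (Finset.mem_singleton.2 h)]
    rw [h2]
    exact hδn n hn

end Pool.Agent.H63.VL
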