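import Pool.Agent.H63.VL.Conv
import Pool.Agent.H63.VL.Lin
import Pool.Agent.H63.VK.LinGen
import Pool.Agent.H63.VK.IRoots

set_option autoImplicit false
set_option linter.unusedSectionVars false

/-! # From very general to general coefficients, for ideals -/

namespace Pool.Agent.H63.VL

open MvPolynomial Pool.Agent.H63.VG Pool.Agent.H63.VI Pool.Agent.H63.VK Pool.Agent.H628R4.TP
open Pool.Agent.W574.SM Pool.Agent.W574.HS

variable {K τ ι : Type} [Fintype K] [Fintype τ] [DecidableEq τ] [Fintype ι] [DecidableEq ι]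

/-- the linear system of the polynomials `∑ y_o f_o` -/
noncomputable def big {R : Type} [CommRing R] (ϰ : Type) (G : K → MvPolynomial τ R) (p : ϰ × K) :
    MvPolynomial (ϰ ⊕ τ) R := X (Sum.inl p.1) * rename Sum.inr (G p.2)

theorem map_big {R S : Type} [CommRing R] [CommRing S] (ϰ : Type) (G : K → MvPolynomial τ R)
    (θ : R →+* S) (p : ϰ × K) : map θ (big ϰ G p) = big ϰ (fun μ => map θ (G μ)) p := by
  rw [big, big, map_mul, map_X, map_rename]

theorem univ_big {ϰ : Type} [Fintype ϰ] (G : K → MvPolynomial τ ℂ) (a : ϰ × K → ℂ) :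
    univ (fun o => ∑ μ, C (a (o, μ)) * G μ) = ∑ p, C (a p) * big ϰ G p := by
  rw [univ, Fintype.sum_prod_type]
  refine Finset.sum_congr rfl fun o _ => ?_
  rw [map_sum, Finset.mul_sum]
  refine Finset.sum_congr rfl fun μ _ => ?_
  rw [map_mul, rename_C, big]
  ring

theorem big_ne {ϰ : Type} (o : ϰ) (G : K → MvPolynomial τ ℂ) (hG : ∃ μ, G μ ≠ 0) :
    ∃ p, big ϰ G p ≠ 0 := by
  obtain ⟨μ, hμ⟩ := hG
  refine ⟨(o, μ), mul_ne_zero (X_ne_zero _) fun h => hμ ?_⟩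
  exact (map_eq_zero_iff _ (rename_injective _ Sum.inr_injective)).1 h

theorem sum_ne {L υ : Type} [Fintype L] (B : L → MvPolynomial υ ℂ) (hB : ∃ p, B p ≠ 0)
    (θ : ℂ →+* ℂ) (c : L → ℂ) (hc : ∀ P : MvPolynomial L ℂ, eval₂ θ c P = 0 → P = 0) :
    ∑ p, C (c p) * map θ (B p) ≠ 0 := by
  classical
  intro h
  obtain ⟨p0, hp0⟩ := hB
  obtain ⟨ν, hν⟩ := MvPolynomial.ne_zero_iff.1 hp0
  have h1 : (∑ p, C (coeff ν (B p)) * X p : MvPolynomial L ℂ) = 0 := by
    refine hc _ ?_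
    rw [eval₂_sum]
    have h2 := congrArg (coeff ν) h
    rw [coeff_sum, coeff_zero] at h2
    rw [← h2]
    refine Finset.sum_congr rfl fun p _ => ?_
    rw [eval₂_mul, eval₂_C, eval₂_X, coeff_C_mul, coeff_map]
    ring
  refine hν ?_
  have h2 := congrArg (coeff (Finsupp.single p0 1)) h1
  rw [coeff_sum, coeff_zero] at h2
  rw [← h2, Finset.sum_eq_single p0]
  · rw [coeff_C_mul, coeff_X, if_pos rfl, mul_one]
  · intro p _ hp
    rw [coeff_C_mul, coeff_X, if_neg (fun h => hp ?_), mul_zero]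
    rcases (Finsupp.single_eq_single_iff _ _ _ _).1 h with h | h
    · exact h.1
    · exact absurd h.1 one_ne_zero
  · intro hp
    exact absurd (Finset.mem_univ p0) hp

section Gen

variable {G : K → MvPolynomial τ ℂ} {κ A : τ → ℕ}

theorem ideal_gen (Λ : LS G κ A) (hv : ∃ μ, MvPowerSeries.constantCoeff (Λ.h μ) ≠ 0) (α : ℚ)
    (M : ℕ)
    (hM : ∀ (θ : ℂ →+* ℂ) (c : Option ι × K → ℂ), AlgebraicIndependent θ.fieldRange c →
      ∀ b : Polynomial ℂ,
      IsFunctionalEq (fun o => member (fun μ => map θ.rangeRestrictField (G μ))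
        fun μ => c (o, μ)) b → (Polynomial.X - Polynomial.C (-(α : ℂ))) ^ M ∣ b) :
    ∃ Γ : MvPolynomial (Option ι × K) ℂ, Γ ≠ 0 ∧ ∀ a : Option ι × K → ℂ, eval a Γ ≠ 0 →
      ∀ b : Polynomial ℂ, IsFunctionalEq (fun o => ∑ μ, C (a (o, μ)) * G μ) b →
        (Polynomial.X - Polynomial.C (-(α : ℂ))) ^ M ∣ b := by
  rcases Nat.eq_zero_or_pos M with h0 | h0
  · exact ⟨1, one_ne_zero, fun _ _ b _ => by rw [h0, pow_zero]; exact one_dvd _⟩
  obtain ⟨E, hE⟩ : ∃ E, (if α = 1 then M + 1 else M) = E + 1 :=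
    ⟨(if α = 1 then M + 1 else M) - 1, by split_ifs <;> omega⟩
  have hcast : (((-α : ℚ)) : ℂ) = -(α : ℂ) := by push_cast; rfl
  have hG : ∃ μ, G μ ≠ 0 := by
    obtain ⟨μ, hμ⟩ := hv
    exact ⟨μ, Λ.ne hμ⟩
  have hall : ∀ (θ : ℂ →+* ℂ) (c : Option ι × K → ℂ),
      (∀ P : MvPolynomial (Option ι × K) ℂ, eval₂ θ c P = 0 → P = 0) → ∀ b : Polynomial ℂ,
      IsBFunction (∑ p, C (c p) * map θ (big (Option ι) G p)) b →
        (Polynomial.X - Polynomial.C (((-α : ℚ)) : ℂ)) ^ (E + 1) ∣ b := by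
    intro θ c hc b hb
    rw [hcast]
    have hne := sum_ne (big (Option ι) G) (big_ne none G hG) θ c hc
    have h1 : ∑ p, C (c p) * map θ (big (Option ι) G p) =
        univ (fun o => ∑ μ, C (c (o, μ)) * map θ (G μ)) := by
      rw [univ_big]
      refine Finset.sum_congr rfl fun p _ => ?_
      rw [map_big]
    rw [h1] at hb hne
    obtain ⟨b', rfl, hb'⟩ := bfun_univ _ hne b hb
    have h2 : (Polynomial.X - Polynomial.C (-(α : ℂ))) ^ M ∣ b' := by
      refine hM θ c ?_ b' ?_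
      · rw [algebraicIndependent_iff]
        intro P' hP'
        obtain ⟨P0, rfl⟩ := map_surjective θ.rangeRestrictField
          (fun x => by
            obtain ⟨x, y, rfl⟩ := x
            exact ⟨y, rfl⟩) P'
        rw [aeval_def, eval₂_map, fieldRange_comp] at hP'
        rw [hc P0 hP', map_zero]
      · refine (iff_of_eq (congrArg (fun f => IsFunctionalEq f b') ?_)).1 hb'
        funext o
        refine Finset.sum_congr rfl fun μ _ => ?_
        rw [map_map, fieldRange_comp]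
    rw [← hE]
    split_ifs with h
    · have h3 : (Polynomial.X - Polynomial.C (-(α : ℂ))) = Polynomial.X + 1 := by
        rw [h]; simp
      rw [h3] at h2 ⊢
      rw [pow_succ']
      exact mul_dvd_mul_left _ h2
    · exact h2.mul_left _
  obtain ⟨Γ, hΓ, hΓ'⟩ := transfer2 (big (Option ι) G) (big_ne none G hG) (-α) E hall
  refine ⟨Γ, hΓ, fun a ha b hb => ?_⟩
  refine dvd_strip α M b ?_
  rw [← hcast, hE]
  refine hΓ' a ha _ ?_
  rw [← univ_big]
  exact Pool.Agent.W366.SI.taskI1' _ b hb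

variable (Λ : LS G κ A)
  (hv : ∃ μ, MvPowerSeries.constantCoeff (Λ.h μ) ≠ 0) (c0 : K → ℂ)
  (e d : τ → ℕ) (he : ∀ t, e t ≠ 0) (hd : ∀ t, d t ≠ 0) (hed : ∀ t, e t * d t = 6)
  (bt : τ → ℂ) {α : ℚ} {T : Finset τ} (hT : VI.Rat κ A T α)

include hv he hd hed hT in
theorem gen2_A (hd2 : ∀ t, t ∉ T → 2 ≤ d t) (hbt : ∀ t, bt t ≠ 0 ∨ (bt t = 0 ∧ T = {t}))
    (H : Tan e d Finset.univ bt (Λ.mem c0))
    (hδn : ∀ n : ℕ, 1 ≤ n → α - ∑ t ∈ Finset.univ \ T, (1 : ℚ) / d t ≠ n) :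
    ∃ Γ : MvPolynomial (Option ι × K) ℂ, Γ ≠ 0 ∧ ∀ a : Option ι × K → ℂ, eval a Γ ≠ 0 →
      ∀ b : Polynomial ℂ, IsFunctionalEq (fun o => ∑ μ, C (a (o, μ)) * G μ) b →
        (Polynomial.X - Polynomial.C (-(α : ℂ))) ^ T.card ∣ b := by
  refine ideal_gen Λ hv α _ fun θ c hc b hb => ?_
  have H' := H.trans θ
  rw [← Λ.trans_mem] at H'
  refine ls2_A (Λ.trans θ) c hc b hb (trans_hv Λ hv θ) _ e d he hd hed _ hT hd2 (fun t => ?_) H' hδn
  rcases hbt t with h | ⟨h, h'⟩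
  · exact Or.inl fun h1 => h ((map_eq_zero_iff θ θ.injective).1 h1)
  · exact Or.inr ⟨by rw [h, map_zero], h'⟩

include hv he hd hed hT in
theorem gen2_D (hbt : ∀ t, bt t ≠ 0) (H : Tan e d Finset.univ bt (Λ.mem c0))
    (hTu : T = Finset.univ) (n : ℕ) (hn : 1 ≤ n) (hα : α = n) :
    ∃ Γ : MvPolynomial (Option ι × K) ℂ, Γ ≠ 0 ∧ ∀ a : Option ι × K → ℂ, eval a Γ ≠ 0 →
      ∀ b : Polynomial ℂ, IsFunctionalEq (fun o => ∑ μ, C (a (o, μ)) * G μ) b →
        (Polynomial.X - Polynomial.C (-(α : ℂ))) ^ (T.card - 1) ∣ b := by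
  refine ideal_gen Λ hv α _ fun θ c hc b hb => ?_
  have H' := H.trans θ
  rw [← Λ.trans_mem] at H'
  exact ls2_D (Λ.trans θ) c hc b hb (trans_hv Λ hv θ) _ e d he hd hed _ hT
    (fun t h1 => hbt t ((map_eq_zero_iff θ θ.injective).1 h1)) H' hTu n hn hα

end Gen

end Pool.Agent.H63.VL
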