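import Pool.Agent.H63.VL.Eng
import Pool.Agent.W574.SM.Defs

set_option autoImplicit false
set_option linter.unusedSectionVars false

/-! # The functional equation of an ideal in terms of words -/

namespace Pool.Agent.H63.VL

open MvPolynomial Pool.Agent.H63.VG Pool.Agent.H628R4.TP Pool.Agent.W574.SM

section Rep

variable {σ κ : Type} (f : MvPolynomial σ ℂ) (q : κ → MvPolynomial σ ℂ) (L : κ → ℕ)

/-- the functions of `s` which are combinations of the `w (q_i f ^ (s + 1 - L i))` -/
def Rep (E : ℕ → MvPolynomial σ ℂ) : Prop :=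
  ∃ (c : (List (σ ⊕ σ) × κ) →₀ Polynomial ℂ) (s0 : ℕ), ∀ s, s0 ≤ s → E s =
    c.sum fun w p => C (p.eval (s : ℂ)) * act w.1 (q w.2 * f ^ (s + 1 - L w.2))

variable {f q L} {E E' : ℕ → MvPolynomial σ ℂ}

theorem Rep.zero : Rep f q L fun _ => 0 := ⟨0, 0, fun s _ => by simp⟩

theorem Rep.add (h : Rep f q L E) (h' : Rep f q L E') : Rep f q L fun s => E s + E' s := by
  classical
  obtain ⟨c, s0, hc⟩ := h
  obtain ⟨c', s0', hc'⟩ := h'
  refine ⟨c + c', max s0 s0', fun s hs => ?_⟩
  rw [Finsupp.sum_add_index' (by simp) (by intros; simp [add_mul]),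
    ← hc s (le_trans (le_max_left _ _) hs), ← hc' s (le_trans (le_max_right _ _) hs)]

theorem Rep.sum {K : Type} (t : Finset K) (E : K → ℕ → MvPolynomial σ ℂ)
    (h : ∀ k ∈ t, Rep f q L (E k)) : Rep f q L fun s => ∑ k ∈ t, E k s := by
  classical
  induction t using Finset.induction_on with
  | empty => simpa using Rep.zero
  | insert k t hk ih =>
    have := Rep.add (h k (Finset.mem_insert_self k t))
      (ih fun l hl => h l (Finset.mem_insert_of_mem hl))
    simpa [Finset.sum_insert hk] using this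

theorem Rep.mul (h : Rep f q L E) (p : Polynomial ℂ) :
    Rep f q L fun s => C (p.eval (s : ℂ)) * E s := by
  obtain ⟨c, s0, hc⟩ := h
  refine ⟨c.mapRange (fun r => p * r) (mul_zero _), s0, fun s hs => ?_⟩
  rw [Finsupp.sum_mapRange_index (by simp)]
  simp only [hc s hs]
  rw [Finsupp.sum, Finsupp.sum, Finset.mul_sum]
  refine Finset.sum_congr rfl fun w _ => ?_
  rw [Polynomial.eval_mul, C_mul, mul_assoc]

theorem Rep.word (w : List (σ ⊕ σ)) (i : κ) :
    Rep f q L fun s => act w (q i * f ^ (s + 1 - L i)) :=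
  ⟨Finsupp.single (w, i) 1, 0, fun s _ => by
    rw [Finsupp.sum_single_index (by simp)]
    simp⟩

theorem Rep.op (P : Module.End ℂ (MvPolynomial σ ℂ)) (hP : P ∈ weylS σ) (i : κ) :
    Rep f q L fun s => P (q i * f ^ (s + 1 - L i)) := by
  obtain ⟨c, rfl⟩ := weyl_span P hP
  have h1 := Rep.sum (f := f) (q := q) (L := L) c.support
    (fun w s => C ((Polynomial.C (c w)).eval (s : ℂ)) * act w (q i * f ^ (s + 1 - L i)))
    (fun w _ => (Rep.word w i).mul (Polynomial.C (c w)))
  refine (iff_of_eq (congrArg (Rep f q L) ?_)).1 h1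
  funext s
  rw [Finsupp.sum, LinearMap.sum_apply]
  refine Finset.sum_congr rfl fun w _ => ?_
  rw [Polynomial.eval_C, C_mul', LinearMap.smul_apply]

theorem Rep.congr (h : Rep f q L E) (s0 : ℕ) (hE : ∀ s, s0 ≤ s → E' s = E s) : Rep f q L E' := by
  obtain ⟨c, s1, hc⟩ := h
  exact ⟨c, max s0 s1, fun s hs => by
    rw [hE s (le_trans (le_max_left _ _) hs), hc s (le_trans (le_max_right _ _) hs)]⟩

/-- the functional equation in terms of words, as an identity of polynomials in `s` -/
theorem words2_poly (hf : f ≠ 0) (b : Polynomial ℂ)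
    (hb : Rep f q L fun s => C (b.eval (s : ℂ)) * f ^ s) :
    ∃ (N : ℕ) (S : Finset (List (σ ⊕ σ) × κ)) (c : List (σ ⊕ σ) × κ → Polynomial ℂ),
      (∀ w ∈ S, w.1.length + L w.2 ≤ N) ∧ C b * (map Polynomial.C f) ^ N =
        ∑ w ∈ S, C (c w) * (map Polynomial.C f) ^ (N + 1 - (w.1.length + L w.2)) *
          q2 (map Polynomial.C f) Polynomial.X (map Polynomial.C (q w.2)) (L w.2) w.1 := by
  classical
  obtain ⟨c, s0, hc⟩ := hb
  obtain ⟨N, hN⟩ : ∃ N, N = max s0 (c.support.sup fun w => w.1.length + L w.2) := ⟨_, rfl⟩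
  have hSN : ∀ w ∈ c.support, w.1.length + L w.2 ≤ N := fun w hw => by
    rw [hN]
    exact le_trans (Finset.le_sup (f := fun w : List (σ ⊕ σ) × κ => w.1.length + L w.2) hw)
      (le_max_right _ _)
  have h : ∀ s : ℕ, N ≤ s → C (b.eval (s : ℂ)) * f ^ N = ∑ w ∈ c.support,
      C ((c w).eval (s : ℂ)) * f ^ (N + 1 - (w.1.length + L w.2)) *
        q2 f (s : ℂ) (q w.2) (L w.2) w.1 := by
    intro s hs
    have hs0 : s0 ≤ s := le_trans (by rw [hN]; exact le_max_left _ _) hs
    refine mul_left_cancel₀ (pow_ne_zero s hf) ?_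
    have h2 : C (b.eval (s : ℂ)) * f ^ s = _ := hc s hs0
    rw [Finsupp.sum] at h2
    calc f ^ s * (C (b.eval (s : ℂ)) * f ^ N) = (C (b.eval (s : ℂ)) * f ^ s) * f ^ N := by ring
      _ = ∑ w ∈ c.support, C ((c w).eval (s : ℂ)) *
          (act w.1 (q w.2 * f ^ (s + 1 - L w.2)) * f ^ N) := by
          rw [h2, Finset.sum_mul]
          refine Finset.sum_congr rfl fun w _ => ?_
          ring
      _ = f ^ s * ∑ w ∈ c.support, C ((c w).eval (s : ℂ)) *
          f ^ (N + 1 - (w.1.length + L w.2)) * q2 f (s : ℂ) (q w.2) (L w.2) w.1 := by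
          rw [Finset.mul_sum]
          refine Finset.sum_congr rfl fun w hw => ?_
          have hwN := hSN w hw
          have h5 := act_q2 f (q w.2) (L w.2) s (by omega) w.1
          obtain ⟨m, hm⟩ : ∃ m, N = w.1.length + m := ⟨N - w.1.length, by omega⟩
          have h6 : act w.1 (q w.2 * f ^ (s + 1 - L w.2)) * f ^ N =
              q2 f (s : ℂ) (q w.2) (L w.2) w.1 * (f ^ (s + 1 - L w.2) * f ^ m) := by
            rw [hm, pow_add, ← mul_assoc, h5, mul_assoc]
          have h7 : f ^ (s + 1 - L w.2) * f ^ m = f ^ s * f ^ (N + 1 - (w.1.length + L w.2)) := by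
            rw [← pow_add, ← pow_add]
            congr 1
            omega
          rw [h6, h7]
          ring
  refine ⟨N, c.support, fun w => c w, hSN, ?_⟩
  rw [← sub_eq_zero]
  obtain ⟨E, hE⟩ : ∃ E : MvPolynomial σ (Polynomial ℂ), E = C b * (map Polynomial.C f) ^ N -
    ∑ w ∈ c.support, C (c w) * (map Polynomial.C f) ^ (N + 1 - (w.1.length + L w.2)) *
      q2 (map Polynomial.C f) Polynomial.X (map Polynomial.C (q w.2)) (L w.2) w.1 := ⟨_, rfl⟩
  rw [← hE]
  have h0 : ∀ (z : ℂ) (g : MvPolynomial σ ℂ),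
      map (Polynomial.evalRingHom z) (map Polynomial.C g) = g := by
    intro z g
    rw [map_map]
    have : (Polynomial.evalRingHom z).comp Polynomial.C = RingHom.id ℂ := by
      ext r
      simp
    rw [this, map_id]
  have h1 : ∀ z : ℂ, map (Polynomial.evalRingHom z) E = C (b.eval z) * f ^ N -
      ∑ w ∈ c.support, C ((c w).eval z) * f ^ (N + 1 - (w.1.length + L w.2)) *
        q2 f z (q w.2) (L w.2) w.1 := by
    intro z
    rw [hE, map_sub, map_mul, map_C, map_pow, h0, map_sum]
    congr 1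
    refine Finset.sum_congr rfl fun w _ => ?_
    rw [map_mul, map_mul, map_C, map_pow, h0, map_q2, h0, h0]
    simp
  refine MvPolynomial.ext _ _ fun μ => ?_
  rw [coeff_zero]
  refine Polynomial.eq_zero_of_infinite_isRoot _ ?_
  have hinf : (Set.range fun n : ℕ => ((n + N : ℕ) : ℂ)).Infinite :=
    Set.infinite_range_of_injective fun x y hxy => by
      have h3 : x + N = y + N := Nat.cast_injective (R := ℂ) hxy
      omega
  refine Set.Infinite.mono ?_ hinf
  rintro _ ⟨s, rfl⟩
  have h3 := h1 ((s + N : ℕ) : ℂ)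
  rw [h (s + N) (by omega), sub_self] at h3
  have h4 := congrArg (coeff μ) h3
  rw [coeff_map, coeff_zero] at h4
  exact h4

end Rep

section Ideal

variable {σ ι : Type} [Fintype ι] [DecidableEq ι]

/-- the polynomial `binom(s, k)` -/
noncomputable def chp (k : ℕ) : Polynomial ℂ :=
  Polynomial.C (((k.factorial : ℕ) : ℂ)⁻¹) * descPochhammer ℂ k

theorem eval_chp (k s : ℕ) : (chp k).eval (s : ℂ) = (s.choose k : ℂ) := by
  rw [chp, Polynomial.eval_mul, Polynomial.eval_C, descPochhammer_eval_eq_descFactorial,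
    Nat.descFactorial_eq_factorial_mul_choose]
  push_cast
  have : ((k.factorial : ℕ) : ℂ) ≠ 0 := Nat.cast_ne_zero.2 (Nat.factorial_ne_zero k)
  field_simp

/-- **The functional equation of an ideal at `(s, 0, …, 0)`.** -/
theorem rep_ideal (f : Option ι → MvPolynomial σ ℂ) (b : Polynomial ℂ)
    (hb : IsFunctionalEq f b) :
    Rep (f none) (fun β : ι →₀ ℕ => ∏ j, f (some j) ^ β j) (fun β => ∑ j, β j)
      fun s => C (b.eval (s : ℂ)) * f none ^ s := by
  classical
  obtain ⟨S, P, hS, hP⟩ := hb
  obtain ⟨sv, hsv⟩ : ∃ sv : ℕ → Option ι → ℕ, sv = fun s j => match j with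
    | none => s
    | some _ => 0 := ⟨_, rfl⟩
  have hsum : ∀ s, ∑ j, sv s j = s := by
    intro s
    rw [Fintype.sum_option, hsv]
    simp
  have hprod : ∀ s, ∏ j, f j ^ sv s j = f none ^ s := by
    intro s
    rw [Fintype.prod_option, hsv]
    simp
  have hall : Rep (f none) (fun β : ι →₀ ℕ => ∏ j, f (some j) ^ β j) (fun β => ∑ j, β j)
      fun s => ∑ c ∈ S, applyAt (P c) (sv s)
          (C ((∏ j, (if c j < 0 then (sv s j).choose (-c j).toNat else 1) : ℕ) : ℂ) *
            ∏ j, f j ^ ((sv s j : ℤ) + c j).toNat) := by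
    refine Rep.sum S _ fun c hc => ?_
    by_cases hneg : ∃ j : ι, c (some j) < 0
    · obtain ⟨j, hj⟩ := hneg
      refine (Rep.zero).congr 0 fun s _ => ?_
      have h1 : (∏ j, (if c j < 0 then (sv s j).choose (-c j).toNat else 1)) = 0 := by
        refine Finset.prod_eq_zero (Finset.mem_univ (some j)) ?_
        rw [if_pos hj]
        have h2 : sv s (some j) = 0 := by rw [hsv]
        rw [h2]
        exact Nat.choose_eq_zero_of_lt (by omega)
      rw [h1, Nat.cast_zero, C_0, zero_mul, applyAt]
      simp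
    · push Not at hneg
      obtain ⟨β, hβ⟩ : ∃ β : ι →₀ ℕ, β = Finsupp.equivFunOnFinite.symm
        fun j => (c (some j)).toNat := ⟨_, rfl⟩
      have hβj : ∀ j, (β j : ℤ) = c (some j) := by
        intro j
        rw [hβ]
        change (((c (some j)).toNat : ℕ) : ℤ) = _
        exact Int.toNat_of_nonneg (hneg j)
      have hL : c none = 1 - ((∑ j, β j : ℕ) : ℤ) := by
        have h1 := hS c hc
        rw [Fintype.sum_option] at h1
        push_cast
        rw [Finset.sum_congr rfl fun j _ => hβj j]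
        linarith
      have hone : Rep (f none) (fun β : ι →₀ ℕ => ∏ j, f (some j) ^ β j) (fun β => ∑ j, β j)
          fun s => ∑ γ ∈ (P c).support,
            C ((Polynomial.C (∏ j, (0 : ℂ) ^ γ (some j)) * Polynomial.X ^ γ none *
              (if c none < 0 then chp (-c none).toNat else 1)).eval (s : ℂ)) *
              (P c γ : Module.End ℂ (MvPolynomial σ ℂ))
                ((∏ j, f (some j) ^ β j) * f none ^ (s + 1 - ∑ j, β j)) :=
        Rep.sum _ _ fun γ _ => (Rep.op _ (P c γ).2 β).mul _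
      refine hone.congr (∑ j, β j) fun s hs => ?_
      rw [applyAt, Finsupp.sum]
      refine Finset.sum_congr rfl fun γ _ => ?_
      have h1 : (∏ j, (sv s j : ℂ) ^ γ j) = (∏ j, (0 : ℂ) ^ γ (some j)) * (s : ℂ) ^ γ none := by
        rw [Fintype.prod_option, hsv, mul_comm]
        simp
      have h2 : ((∏ j, (if c j < 0 then (sv s j).choose (-c j).toNat else 1) : ℕ) : ℂ) =
          (if c none < 0 then chp (-c none).toNat else 1 : Polynomial ℂ).eval (s : ℂ) := by
        rw [Fintype.prod_option]
        have h3 : ∀ j : ι, (if c (some j) < 0 then (sv s (some j)).choose (-c (some j)).toNat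
            else 1) = 1 := fun j => if_neg (not_lt.2 (hneg j))
        simp only [h3, Finset.prod_const_one, mul_one]
        have h4 : sv s none = s := by rw [hsv]
        rw [h4]
        split_ifs
        · rw [eval_chp]
        · simp
      have h5 : ∏ j, f j ^ ((sv s j : ℤ) + c j).toNat =
          (∏ j, f (some j) ^ β j) * f none ^ (s + 1 - ∑ j, β j) := by
        rw [Fintype.prod_option, mul_comm]
        congr 1
        · refine Finset.prod_congr rfl fun j _ => ?_
          congr 1
          have h6 : sv s (some j) = 0 := by rw [hsv]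
          rw [h6, ← hβj]
          simp
        · congr 1
          have h6 : sv s none = s := by rw [hsv]
          rw [h6, hL]
          omega
      rw [h1, h2, h5, C_mul', map_smul, smul_smul, C_mul']
      congr 1
      rw [Polynomial.eval_mul, Polynomial.eval_mul, Polynomial.eval_C, Polynomial.eval_pow,
        Polynomial.eval_X]
  refine hall.congr 0 fun s _ => ?_
  have h1 := hP (sv s)
  rw [hsum, hprod] at h1
  exact h1

end Ideal

end Pool.Agent.H63.VL
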